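import Pool.Agent.Q283.EN.Stm
import Pool.Agent.Q7.CE.Stm2
import Pool.Agent.Q7.CE.Stm3

/-!
# Project EN (helper283): statements of the parts, the curves

GOAL.  Exact laws of the Selmer groups of the cubic twists `E_D : y² + D y = x³` over every number field containing the third roots of unity
(`S_CLAW`) and of the quartic twists `y² = x³ + D x` over every number field containing `i` (`S_QLAW`): in the families of project CE the group of
the classes `a` modulo cubes (squares) for which `w³ = a² u³ + a D s³` (`a w² = a² u⁴ + D s⁴`) is solvable in all completions has exactly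
`p^(r+1)` elements for a share of the twists which tends to `al p r`, `p = 3` (`p = 2`).

The new ingredient is the exact number of the local classes at the places above `p` (`S_IDX3`, `S_IDX2`), from `#E(F_v) / θ E(F_v)`.
-/

set_option autoImplicit false

namespace Pool.Agent.Q283.EN

open NumberField IsDedekindDomain Filter Topology Finset WeierstrassCurve
open Pool.Agent.Q283.LQ (Sm Box Nest nS)
open Pool.Agent.Q7.LK
open Pool.Agent.Q7.CE
open Pool.Agent.TH841.SH.D (Coch Pt act Gal IsCoc IsCob LocTriv)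
open Pool.Agent.TH841.NF.D (Sha IsShaCoc)

/-- the curve `y² = x³ + A x + B` -/
def sh {F : Type} [Field F] (A B : F) : WeierstrassCurve F := ⟨0, 0, 0, A, B⟩

/-- the curve `y² + a y = x³ + b x` -/
def EG {F : Type} [Field F] (a b : F) : WeierstrassCurve F := ⟨0, 0, a, b, 0⟩

/-- the curve `y² = x³ + D x` -/
def EQ {F : Type} [Field F] (D : F) : WeierstrassCurve F := ⟨0, 0, 0, D, 0⟩

/-- the class modulo squares of the point `P` of `EQ D` over `L` is that of `a`: the class of `0` is `1`, that of `(0, 0)` is `D`, that of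
`(x, y)`, `x ≠ 0`, is `x` -/
def CQ {F : Type} [Field F] (D : F) (L : Type) [Field L] [Algebra F L] (P : Pt (EQ D) L) (a : L) : Prop :=
  a ≠ 0 ∧ ((P = 0 ∧ ∃ s : L, a = s ^ 2) ∨
    ((∃ h, P = Affine.Point.some 0 0 h) ∧ ∃ s : L, a * algebraMap F L D = s ^ 2) ∨
    ∃ (x y : L) (h : ((EQ D).baseChange L).toAffine.Nonsingular x y) (s : L),
      P = Affine.Point.some x y h ∧ x ≠ 0 ∧ s ≠ 0 ∧ a = x * s ^ 2)

section F

variable {F : Type} [Field F] [NumberField F]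

/-- the point `P` of `W(F_v)` is in the neighbourhood `v(x) ≥ exp (2 n)` of the origin -/
def Hn (v : HeightOneSpectrum (𝓞 F)) (W : WeierstrassCurve F) (n : ℕ) (P : Pt W (v.adicCompletion F)) : Prop :=
  ∀ x y h, P = Affine.Point.some x y h → WithZero.exp (2 * (n : ℤ)) ≤ Valued.v x

/-- the curve `a w² = a² u⁴ + D s⁴` has a point over the completion at `v` -/
def AQ (v : HeightOneSpectrum (𝓞 F)) (D a : F) : Prop :=
  a ≠ 0 ∧ ∃ u w s : v.adicCompletion F, (u ≠ 0 ∨ w ≠ 0 ∨ s ≠ 0) ∧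
    (a : v.adicCompletion F) * w ^ 2 = (a : v.adicCompletion F) ^ 2 * u ^ 4 + (D : v.adicCompletion F) * s ^ 4

/-- the order of `D` at `v` is divisible by `4` -/
def Q4 (v : HeightOneSpectrum (𝓞 F)) (D : F) : Prop := ∃ x : F, v.valuation F (D * x ^ 4) = 1

/-- `D` has, outside the primes above the rational primes `≤ y`, odd order at the primes `q i`, an order divisible by `4` at the others, and
it is, at the primes above the rational primes `≤ y`, equal to `D0` up to local fourth powers -/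
structure QFits (y : ℕ) (D0 : F) {k : ℕ} (q : Fin k → HeightOneSpectrum (𝓞 F)) (D : F) : Prop where
  ne : D ≠ 0
  unr : ∀ v : HeightOneSpectrum (𝓞 F), ¬ Sm y v → (∀ i, q i ≠ v) → Q4 v D
  ram : ∀ i, vl 2 (q i) D = 1
  loc : ∀ v : HeightOneSpectrum (𝓞 F), Sm y v → Lpw 4 v (D / D0)

/-- locally trivial cocycles of `EQ D` with values in `{0, (0, 0)}` -/
def TCoc2 (D : F) (f : Coch (EQ D)) : Prop :=
  IsShaCoc (EQ D) f ∧ ∀ σ, f σ = 0 ∨ ∃ h, f σ = Affine.Point.some 0 0 h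

/-- coboundaries of the points of order dividing `2` -/
def Cob2 (D : F) (f : Coch (EQ D)) : Prop :=
  ∃ R : Pt (EQ D) (AlgebraicClosure F), (2 : ℕ) • R = 0 ∧ ∀ σ : Gal F, f σ = act (EQ D) σ.toAlgHom R - R

/-- among any `N + 1` locally trivial cocycles with values in `{0, (0, 0)}` two are equal up to coboundaries of points of order
dividing `2` -/
def Few2 (D : F) (N : ℕ) : Prop :=
  ∀ f : Fin (N + 1) → Coch (EQ D), (∀ i, TCoc2 D (f i)) → ∃ i i', i ≠ i' ∧ Cob2 D (f i - f i')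

/-- the group of the points of `EQ D` over `F` is finite and the `2`-primary part of the Tate-Shafarevich group is trivial -/
def Triv2 (D : F) : Prop :=
  Finite (EQ D).toAffine.Point ∧ ∀ (n : ℕ) (x : Sha (EQ D)), 2 ^ n • x = 0 → x = 0

end F

/-! ## The local index -/

/-- JOB LPT (Hensel's lemma). Points near the origin of `y² = x³ + A x + B`.
Proof.  Look for `y = 1 / w`, `x = z / w`: the equation is `w = z³ + A z w² + B w³`, and with `w = z³ u`: `u = 1 + A z⁴ u² + B z⁶ u³`.  The polynomial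
`g(U) = B z⁶ U³ + A z⁴ U² - U + 1` over the valuation ring has `v(g(1)) < 1` and `v(g'(1)) = 1`: Hensel gives a zero `u` with `v(u - 1) < 1`, `v(u) = 1` (or a Newton iteration /
contraction in the complete field; compare `Pool/Agent/Q96`, `Q65`, proofs of `LK.S_CPL`).  `x = z / w`, `v(x) = v(z)⁻²`. -/
def S_LPT : Prop := ∀ (F : Type) [Field F] [NumberField F] (v : HeightOneSpectrum (𝓞 F)) (A B : F),
  v.valuation F A ≤ 1 → v.valuation F B ≤ 1 → ∀ z : v.adicCompletion F, z ≠ 0 → Valued.v z < 1 →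
  ∃ x y : v.adicCompletion F, y ≠ 0 ∧ x = z * y ∧ Valued.v x * Valued.v z ^ 2 = 1 ∧
    y ^ 2 = x ^ 3 + algebraMap F (v.adicCompletion F) A * x + algebraMap F (v.adicCompletion F) B

/-- JOB LNA (uses the library `Pool/Agent/TH954/{NA, NB, Cls, Expo}.lean`). The filtration of `E(F_v)`.
Proof.  Translate `SI.big_add`, `SI.big_neg` (`Big R`, `R = q^(2 n) > 1`, `q` the norm of `π⁻¹`), `SI.exists_near` with the finiteness of the classes (`finite_classes`; see the proof of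
`exists_expo` in `Expo.lean`: finitely many classes of the coordinates `nc P` modulo a small `d`, choose one point for every class which occurs) and `SI.near_of_big` (`j = 0`, `nc (x, y) = (x / y, 1, 1 / y)`
for `‖x‖ > 1`) from the norm of `v.adicCompletion F` to `Valued.v`.  `ShortInt.si` gives `SI`. -/
def S_LNA : Prop := ∀ (F : Type) [Field F] [NumberField F] (v : HeightOneSpectrum (𝓞 F)) (A B : F),
  IsIntegral ℤ A → IsIntegral ℤ B → 4 * A ^ 3 + 27 * B ^ 2 ≠ 0 →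
  (∀ n : ℕ, 1 ≤ n → ∀ P Q, Hn v (sh A B) n P → Hn v (sh A B) n Q → Hn v (sh A B) n (P + Q)) ∧
  (∀ (n : ℕ) (P : Pt (sh A B) (v.adicCompletion F)), Hn v (sh A B) n P → Hn v (sh A B) n (-P)) ∧
  (∀ n : ℕ, ∃ T : Finset (Pt (sh A B) (v.adicCompletion F)), ∀ P, ∃ Q ∈ T, Hn v (sh A B) n (P - Q)) ∧
  ∀ n : ℕ, 1 ≤ n → ∀ (P Q : Pt (sh A B) (v.adicCompletion F)) (x y x' y' : v.adicCompletion F) (h) (h'),
    P = Affine.Point.some x y h → Q = Affine.Point.some x' y' h' →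
    WithZero.exp (2 : ℤ) ≤ Valued.v x → WithZero.exp (2 : ℤ) ≤ Valued.v x' → Hn v (sh A B) n (P - Q) →
    Valued.v (x / y - x' / y') ≤ WithZero.exp (-(n : ℤ))

/-- JOB ABS (pure algebra). The index of the image of an endomorphism.
Proof.  `Γ = G / H'` is finite, `θ` acts on it (`θ H' ⊆ H'`); `#(Γ / θ Γ) = #ker(θ on Γ)`, and the classes of the `x + m`, `x ∈ K0`, `m ∈ M`, are in the kernel and pairwise different.  `B` = representatives in `G` of
the elements of `Γ / θ Γ`. -/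
def S_ABS : Prop := ∀ (G : Type) [AddCommGroup G] (θ : G →+ G) (H H' : AddSubgroup G), H' ≤ H →
  (∀ x ∈ H, θ x ∈ H') → (∃ T : Finset G, ∀ x, ∃ t ∈ T, x - t ∈ H') →
  ∀ K0 M : Finset G, (∀ x ∈ K0, θ x = 0) → (∀ x ∈ K0, ∀ y ∈ K0, x ≠ y → x - y ∉ H) →
  (∀ x ∈ M, x ∈ H) → (∀ x ∈ M, ∀ y ∈ M, x ≠ y → x - y ∉ H') →
  ∃ B : Finset G, K0.card * M.card ≤ B.card ∧ ∀ x ∈ B, ∀ y ∈ B, x ≠ y → ∀ z, x - y ≠ θ z

/-- JOB LIX (uses `S_LPT`, `S_LNA`, `S_ABS`). The local index, short equations.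
Proof.  `n` large (`2 n ≥ n0`, `n ≥ 1`, the nonzero differences of elements of `K0` not in `Hn n`), `H = Hn n`, `H' = Hn (n + e)` (subgroups, `S_LNA`), `θ H ⊆ H'` by the hypothesis.  `M` = the points `(x, y)` with
`x / y = z` (`S_LPT`), `z` running through nonzero representatives of `{v(z) ≤ exp(-n)}` modulo `{v(z) ≤ exp(-n-e)}`: there are `(N v)^e` of them, the last part of `S_LNA` with `n + e` shows that
the differences are not in `H'`.  `S_ABS`. -/
def S_LIX : Prop := ∀ (F : Type) [Field F] [NumberField F] (v : HeightOneSpectrum (𝓞 F)) (A B : F),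
  IsIntegral ℤ A → IsIntegral ℤ B → 4 * A ^ 3 + 27 * B ^ 2 ≠ 0 →
  ∀ (θ : Pt (sh A B) (v.adicCompletion F) →+ Pt (sh A B) (v.adicCompletion F)) (e n0 : ℕ),
  (∀ (x y : v.adicCompletion F) (h : ((sh A B).baseChange (v.adicCompletion F)).toAffine.Nonsingular x y),
    WithZero.exp (n0 : ℤ) ≤ Valued.v x → ∃ X Y h', θ (Affine.Point.some x y h) = Affine.Point.some X Y h' ∧
      WithZero.exp (2 * (e : ℤ)) * Valued.v x ≤ Valued.v X) →
  ∀ K0 : Finset (Pt (sh A B) (v.adicCompletion F)), (∀ P ∈ K0, θ P = 0) →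
  ∃ M : Finset (Pt (sh A B) (v.adicCompletion F)), K0.card * Ideal.absNorm v.asIdeal ^ e ≤ M.card ∧
    ∀ P ∈ M, ∀ Q ∈ M, P ≠ Q → ∀ R, P - Q ≠ θ R

/-- JOB LIXG (uses `S_LIX`). The local index for `y² + a y = x³ + b x`.
Proof.  `(x, y) ↦ (4 x, 8 y + 4 a)` is an isomorphism of groups from `EG a b` to `sh (16 b) (16 a²)` over `K` (additive by the addition formulas, compare `im` in `Pool/Agent/Q285/CE/EllD.lean`, or variable change lemmas of
Mathlib), `4 (16 b)³ + 27 (16 a²)² = 256 (64 b³ + 27 a⁴)`, `v(4 x) ≤ v(x)`; transport `θ`, `K0`, `M`. -/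
def S_LIXG : Prop := ∀ (F : Type) [Field F] [NumberField F] (v : HeightOneSpectrum (𝓞 F)) (a b : F),
  IsIntegral ℤ a → IsIntegral ℤ b → 64 * b ^ 3 + 27 * a ^ 4 ≠ 0 →
  ∀ (θ : Pt (EG a b) (v.adicCompletion F) →+ Pt (EG a b) (v.adicCompletion F)) (e n0 : ℕ),
  (∀ (x y : v.adicCompletion F) (h : ((EG a b).baseChange (v.adicCompletion F)).toAffine.Nonsingular x y),
    WithZero.exp (n0 : ℤ) ≤ Valued.v x → ∃ X Y h', θ (Affine.Point.some x y h) = Affine.Point.some X Y h' ∧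
      WithZero.exp (2 * (e : ℤ)) * Valued.v x ≤ Valued.v X) →
  ∀ K0 : Finset (Pt (EG a b) (v.adicCompletion F)), (∀ P ∈ K0, θ P = 0) →
  ∃ M : Finset (Pt (EG a b) (v.adicCompletion F)), K0.card * Ideal.absNorm v.asIdeal ^ e ≤ M.card ∧
    ∀ P ∈ M, ∀ Q ∈ M, P ≠ Q → ∀ R, P - Q ≠ θ R

/-- JOB VAL. Ramification and the sum of the local degrees.
Proof.  If `v ∤ p` then `e = 0`, `dv p v = 0`.  `v ∣ p`: the ramification index `m` (`v(p) = exp(-m)`) is even: `p = 2`: `2 = (1 + i)² / i`; `p` odd: `p = ∏_(0 < j < p) (1 - ζ^j)`, and all the `1 - ζ^j` have the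
same valuation, `p - 1` is even.  `e = m / 2`, `N v = p^f`, `dv p v = m f`.  Sum: `∑_(v ∣ p) m f = [F : ℚ]` (see `Pool/Agent/Q7/LK/Sum.lean`, `finsum_cI`, and the proof of `CE.S_ESUM`), all terms are even, `[F : ℚ] = 2 r2` as `F` is
totally complex (`tot_complex` in `Pool/Agent/Q7/LK/Fin2.lean`; for `p = 2` since `i ∈ F`). -/
def S_VAL : Prop := ∀ (p : ℕ) [Fact p.Prime] (F : Type) [Field F] [NumberField F] (ζ : F), IsPrimitiveRoot ζ p → Hi p F →
  (∀ v : HeightOneSpectrum (𝓞 F), ∃ e : ℕ, v.valuation F (p : F) = WithZero.exp (-(2 * (e : ℤ))) ∧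
    Ideal.absNorm v.asIdeal ^ e = p ^ (dv p v / 2)) ∧
  InfinitePlace.nrComplexPlaces F ≤ ∑ᶠ v : HeightOneSpectrum (𝓞 F), dv p v / 2

/-- JOB UNQ. Uniqueness (uses `LK.S_BAS`).
Proof.  `y0` and `u, r, π, g` from `P_BASE`.  `x`: by `Base.full` some `x * mon u c` is a `p`-th power, so `Nn p y (mon u c)` (`S_BAS`; `x⁻¹` times a `p`-th power), and `Base.cls` for `b = 1` (the pairs `(0, 0)` and `(0, c)`) gives `c = 0`,
`mon u 0 = 1`.  The last part is `Base.po`. -/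
def S_UNQ : Prop := ∀ (p : ℕ) [Fact p.Prime] (F : Type) [Field F] [NumberField F] (ζ : F), P_BASE p F ζ →
  ∃ y0 : ℕ, ∀ y, y0 ≤ y → p ≤ y ∧
    (∀ x : F, x ≠ 0 → (∀ v : HeightOneSpectrum (𝓞 F), ¬ Sm y v → vl p v x = 0) →
      (∀ v : HeightOneSpectrum (𝓞 F), Sm y v → Lpw p v x) → IsPow p x) ∧
    ∀ v : HeightOneSpectrum (𝓞 F), ¬ Sm y v → ∃ π : F, π ≠ 0 ∧ vl p v π = 1 ∧
      ∀ w : HeightOneSpectrum (𝓞 F), ¬ Sm y w → w ≠ v → vl p w π = 0

/-! ## The cubic twists -/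

/-- JOB AEC. The condition `AE` and the points.
Proof.  `K = v.adicCompletion F`.  A solution `(u, w, s)` of `w³ = a² u³ + a D s³` with `s ≠ 0`, `u ≠ 0` (divide by `s`: `s = 1`) gives the point `(u w, a u³)` of class `a = a u³ (1 / u)³`; `u = 0`: `a D` is a cube, the point `(0, 0)`; `s = 0`: `a` is a
cube, the point `0`.  Conversely see the docstring of `CE.S_FS2` and its proof (`Pool/Agent/Q275/CE/FS2.lean`). -/
def S_AEC : Prop := ∀ (F : Type) [Field F] [NumberField F] (v : HeightOneSpectrum (𝓞 F)) (D a : F), D ≠ 0 → a ≠ 0 →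
  (AE v D a ↔ ∃ P : Pt (ED D) (v.adicCompletion F), Cls D (v.adicCompletion F) P (a : v.adicCompletion F))

/-- JOB TH3 (pure algebra). The endomorphism `θ = 1 - [ω]`, explicitly.
Proof.  `θ` from `Pool/Agent/Q123/CE/FEND.lean`, `Pool/Agent/Q285/CE/EDD.lean` (`id - imP`).  First part: additivity of the classes and the kernel (`S_FEND`): `P - Q` has the class `a / b`, a cube.  Formula: `(x, y) - (ω x, y) = (x, y) + (ω x, - y - D)`: the slope is
`(2 y + D) / ((1 - ω) x)`, `X = (2 y + D)² / ((1 - ω)² x²) - x - ω x`, `(1 - ω)² = - 3 ω`, `(2 y + D)² = 4 x³ + D²`, `- x - ω x = ω² x`. -/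
def S_TH3 : Prop := ∀ (F : Type) [Field F] [CharZero F] (ω D : F), IsPrimitiveRoot ω 3 → D ≠ 0 →
  ∃ θ : ∀ (L : Type) [Field L] [Algebra F L], Pt (ED D) L →+ Pt (ED D) L,
    (∀ (L : Type) [Field L] [Algebra F L] (P Q : Pt (ED D) L) (a b s : L), Cls D L P a → Cls D L Q b →
      a / b = s ^ 3 → ∃ R, P - Q = θ L R) ∧
    (∀ (L : Type) [Field L] [Algebra F L] (P : Pt (ED D) L),
      (P = 0 ∨ ∃ y h, P = Affine.Point.some 0 y h) → θ L P = 0) ∧
    ∀ (L : Type) [Field L] [Algebra F L] (x y : L) (h : ((ED D).baseChange L).toAffine.Nonsingular x y), x ≠ 0 →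
      ∃ X Y h', θ L (Affine.Point.some x y h) = Affine.Point.some X Y h' ∧
        X * (-3 * algebraMap F L ω * x ^ 2) = x ^ 3 + algebraMap F L D ^ 2

/-- JOB IDX3 (uses `LK.S_BAS`, `LK.S_CPL`, `CE.S_ELOC`, `CE.S_FEND`, `S_AEC`, `S_TH3`, `S_LIXG`, `S_VAL`). The number of the local classes.
Proof.  By `S_ELOC` (2) `D` may be replaced by `D n³`, `n ∈ ℕ`, so `D` is integral; `ED D = EG D 0`.  `e` from `S_VAL` (`p = 3`), `θ` from `S_TH3`: for `v(x)` large `v(X) = v(x) / v(3) = exp(2 e) v(x)`.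
`K0 = {0, (0, 0), (0, - D)}`.  `S_LIXG` gives at least `3 · 3^(dv 3 v / 2)` points of `E_D(F_v)` whose differences are not in the image of `θ`; choose for each point a class in `K` (`S_FEND`) and `b ∈ F^*` close to it (`b / class` a cube in
`K`); `AE v D b` by `S_AEC`, and `b / b'` is not a local cube by the first part of `S_TH3` (`S_CPL`). -/
def S_IDX3 : Prop := ∀ (F : Type) [Field F] [NumberField F] (ω : F), IsPrimitiveRoot ω 3 →
  ∀ (v : HeightOneSpectrum (𝓞 F)) (D : F), D ≠ 0 → ∃ B : Finset F, 3 ^ (dv 3 v / 2 + 1) ≤ B.card ∧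
    (∀ b ∈ B, AE v D b) ∧ ∀ b ∈ B, ∀ b' ∈ B, b ≠ b' → ¬ Lpw 3 v (b / b')

/-- JOB ECX (uses `LK.S_BAS`, `LK.S_CPL`, `CE.S_ELOC`, `S_IDX3`). The condition outside `3`.
Proof.  `→` is the local argument in the proof of `CE.S_ECOND` (see its docstring and proof).  `←`: if `a D^j` is a local cube: `AE v D 1` (solution `(1, 1, 0)`) and `S_ELOC`.  `vl D = 0`, `vl a = 0`: the three (`dv 3 v = 0`) inequivalent elements `b` of
`S_IDX3` have `vl b = 0` by `→`, so their symbols `sy v b` are the three elements of `ZMod 3` (`S_BAS` (7)), and `a` has the symbol of one of them: `a / b` is a local cube, `S_ELOC` (1). -/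
def S_ECX : Prop := ∀ (F : Type) [Field F] [NumberField F] (ω : F), IsPrimitiveRoot ω 3 →
  ∀ (v : HeightOneSpectrum (𝓞 F)) (D a : F), ¬ Dp 3 v → D ≠ 0 → a ≠ 0 →
  (AE v D a ↔ (vl 3 v D = 0 → vl 3 v a = 0) ∧ (vl 3 v D ≠ 0 → ∃ j : ℕ, Lpw 3 v (a * D ^ j)))

/-- JOB CFEW (uses `CE.S_ELOC`, `CE.S_EKUM2`). The number of the cocycles.
Proof.  `f_0, .., f_N`, `N = 3^r`; `a_i` from `S_EKUM2`.  The `3 (3^r + 1) > 3^(r+1)` elements `a_i D^j`, `j = 0, 1, 2`, have the property (`S_ELOC` (3)), so two of them, `(i, j) ≠ (i', j')`, differ by a cube; `i = i'` would imply that `D` or `D²` is a cube, so `D` is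
one; so `i ≠ i'` and `a_i / a_i' * D^(j + 2 j')` is a cube. -/
def S_CFEW : Prop := ∀ (F : Type) [Field F] [NumberField F] (ω D : F), IsPrimitiveRoot ω 3 → D ≠ 0 → ¬ IsPow 3 D →
  ∀ r : ℕ, HasN 3 (fun a : F => ∀ v : HeightOneSpectrum (𝓞 F), AE v D a) (3 ^ (r + 1)) → Few D (3 ^ r)

/-- JOB CLAW (uses `S_LAWX`, `LK.S_BASE`, `LK.S_LOC`, `LK.S_HS2`, `LK.S_BAS`, `LK.S_CPL`, `CE.S_ELOC`, `CE.S_EISO`, `CE.S_FEND`, `S_AEC`, `S_VAL`, `S_UNQ`, `S_IDX3`, `S_ECX`). **The law for the cubic twists.**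
Proof.  `S_LAWX` for `p = 3`, `A v = AE v D0`, `c v = dv 3 v / 2`.  `LocX`: `mul`: points (`S_AEC`) and the additivity of the classes (`S_FEND`); `pow`: `AE v D0 1`, `S_ELOC` (1); `iso`: `S_EISO`; `num`: `S_IDX3`; `zero`: `dv 3 v = 0` for `v ∤ 3`.  Sum: `S_VAL`.
If `D` fits: (for all `v`, `AE v D a`) iff `CondX` (small `v`: `S_ELOC` (2), `D / D0` and `D0 / D` local cubes; others: `S_ECX`, `a ≠ 0`).  Two `D` which fit for the same `q` differ by a cube (`S_UNQ`), and `AE v D` depends only on `D` modulo cubes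
(`S_ELOC` (2)). -/
def S_CLAW : Prop := ∀ (F : Type) [Field F] [NumberField F] (ω : F), IsPrimitiveRoot ω 3 → ∃ y0 : ℕ, ∀ y, y0 ≤ y →
  ∀ D0 : F, D0 ≠ 0 → ∀ (R : ℕ) (ε : ℝ), 0 < ε → ∃ k0 : ℕ, ∀ k, k0 ≤ k → ∀ z : Fin k → ZMod 3, (∀ i, z i ≠ 0) → Nest k fun X =>
    (Box y X : Set (Fin k → HeightOneSpectrum (𝓞 F))).Finite ∧
    0 < ({q ∈ (Box y X : Set (Fin k → HeightOneSpectrum (𝓞 F))) | ∃ D, Fits 3 y D0 z q D}.ncard : ℝ) ∧
    (∀ r ≤ R, |({q ∈ (Box y X : Set (Fin k → HeightOneSpectrum (𝓞 F))) | (∃ D, Fits 3 y D0 z q D) ∧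
          ∀ D, Fits 3 y D0 z q D → HasN 3 (fun a : F => ∀ v : HeightOneSpectrum (𝓞 F), AE v D a) (3 ^ (r + 1))}.ncard : ℝ) -
        al 3 r * ({q ∈ (Box y X : Set (Fin k → HeightOneSpectrum (𝓞 F))) | ∃ D, Fits 3 y D0 z q D}.ncard : ℝ)| ≤
      ε * ({q ∈ (Box y X : Set (Fin k → HeightOneSpectrum (𝓞 F))) | ∃ D, Fits 3 y D0 z q D}.ncard : ℝ)) ∧
    ∀ (B : Finset (Fin k → HeightOneSpectrum (𝓞 F))) (N : (Fin k → HeightOneSpectrum (𝓞 F)) → ℕ),
      (∀ q ∈ B, q ∈ (Box y X : Set (Fin k → HeightOneSpectrum (𝓞 F)))) →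
      (∀ q ∈ B, ∃ D, Fits 3 y D0 z q D ∧ HasN 3 (fun a : F => ∀ v : HeightOneSpectrum (𝓞 F), AE v D a) (N q)) →
      ∑ q ∈ B, (N q : ℝ) ≤ (2 + ε) * 3 *
        ({q ∈ (Box y X : Set (Fin k → HeightOneSpectrum (𝓞 F))) | ∃ D, Fits 3 y D0 z q D}.ncard : ℝ)

/-! ## The quartic twists -/

/-- JOB QCL (pure algebra). The classes of the points of `y² = x³ + D x`.
Proof.  Additivity: `P = (x₁, y₁)`, `Q = (x₂, y₂)`, `- (P + Q) = (x₃, y₃)` on a line `Y = l X + m`: `X³ + D X - (l X + m)²` has the zeros `x_i`, so `x₁ x₂ x₃ = m²`; `x(-P) = x(P)`; the special point `T = (0, 0)`: `x(P + T) = D / x(P)`.  Template: `Pool/Agent/Q123/CE/Cl.lean`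
(cubic case). -/
def S_QCL : Prop := ∀ (F : Type) [Field F] [CharZero F] (D : F), D ≠ 0 →
  (∀ (L : Type) [Field L] [Algebra F L] (P : Pt (EQ D) L), (∃ a, CQ D L P a) ∧
    (∀ a s : L, CQ D L P a → s ≠ 0 → CQ D L P (a * s ^ 2)) ∧
    (∀ a b : L, CQ D L P a → CQ D L P b → ∃ s : L, s ≠ 0 ∧ b = a * s ^ 2) ∧
    (∀ (Q : Pt (EQ D) L) (a b : L), CQ D L P a → CQ D L Q b → CQ D L (P + Q) (a * b))) ∧
  ∀ (L L' : Type) [Field L] [Algebra F L] [Field L'] [Algebra F L'] (φ : L →ₐ[F] L') (P : Pt (EQ D) L) (a : L),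
    CQ D L P a → CQ D L' (act (EQ D) φ P) (φ a)

/-- JOB QFEND (pure algebra). The endomorphisms `θ = 1 + [i]`, `θ' = 1 - [i]`, `[i](x, y) = (- x, i y)`.
Proof.  `[i]` is additive (slopes are multiplied by `- i`; template `im` in `Pool/Agent/Q285/CE/EllD.lean`), `[i][i] = - 1`, so `θ θ' = θ' θ = 2`.  Kernel: `(x, y) = ∓ (- x, i y)`-type equations give `x = 0`, `y = 0`.  Formula: the slope of the line through `(x, y)` and `(- x, i y)` is
`l = y / ((1 + i) x)`, `X = l² - x + x = l²`, `(1 + i)² = 2 i`.  `θ' = - [i] θ`.  Last part: by the formula the `x`-coordinate of `θ R` is a square (`R = (x, 0)`, `x ≠ 0`: `θ R = (0, 0)`, `D = - x² = (i x)²`).  Conversely `P = (X, Y)`, `X = λ² ≠ 0`: `x = i (λ² + Y / λ)` satisfies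
`x² - 2 i λ² x + D = 0` (`(Y / λ)² = λ⁴ + D`), `x ≠ 0`, `y = (1 + i) λ x`: `(x, y)` is on the curve and `θ (x, y)` has the `x`-coordinate `λ²`, so it is `± P`.  `P = (0, 0)`, `D = d²`: `R = (i d, 0)`.  Surjectivity over an algebraically closed field follows (every element is a square), also for `θ'`. -/
def S_QFEND : Prop := ∀ (F : Type) [Field F] [CharZero F] (i D : F), i ^ 2 = -1 → D ≠ 0 →
  ∃ θ θ' : ∀ (L : Type) [Field L] [Algebra F L], Pt (EQ D) L →+ Pt (EQ D) L,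
    (∀ (L : Type) [Field L] [Algebra F L] (P : Pt (EQ D) L), θ' L (θ L P) = (2 : ℕ) • P ∧
      θ L (θ' L P) = (2 : ℕ) • P) ∧
    (∀ (L L' : Type) [Field L] [Algebra F L] [Field L'] [Algebra F L'] (φ : L →ₐ[F] L') (P : Pt (EQ D) L),
      act (EQ D) φ (θ L P) = θ L' (act (EQ D) φ P) ∧ act (EQ D) φ (θ' L P) = θ' L' (act (EQ D) φ P)) ∧
    (∀ (L : Type) [Field L] [Algebra F L] (P : Pt (EQ D) L),
      (θ L P = 0 ↔ P = 0 ∨ ∃ h, P = Affine.Point.some 0 0 h) ∧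
      (θ' L P = 0 ↔ P = 0 ∨ ∃ h, P = Affine.Point.some 0 0 h)) ∧
    (∀ (L : Type) [Field L] [Algebra F L], IsAlgClosed L → ∀ P : Pt (EQ D) L, (∃ R, θ L R = P) ∧ ∃ R, θ' L R = P) ∧
    (∀ (L : Type) [Field L] [Algebra F L] (x y : L) (h : ((EQ D).baseChange L).toAffine.Nonsingular x y), x ≠ 0 →
      ∃ X Y h', θ L (Affine.Point.some x y h) = Affine.Point.some X Y h' ∧
        X * (2 * algebraMap F L i * x ^ 2) = y ^ 2) ∧
    ∀ (L : Type) [Field L] [Algebra F L] (P : Pt (EQ D) L) (s : L), s ≠ 0 →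
      (CQ D L P (s ^ 2) ↔ ∃ R, P = θ L R)

/-- JOB QAP. The condition `AQ` and the points.
Proof.  A solution `(u, w, s)` of `a w² = a² u⁴ + D s⁴` with `s ≠ 0`, `u ≠ 0` (`s = 1`) gives the point `(a u², a u w)`, `(a u w)² = a u² · a w² = a u² (a² u⁴ + D)`, of class `a`; `u = 0`: `a D` is a square (`(a w / s²)² = a D`), the point `(0, 0)`; `s = 0`: `a w² = a² u⁴`, `u ≠ 0`, `a = (w / u²)²`, the
point `0`.  Conversely from `x = a t²` (`t ≠ 0`): `u = t`, `s = 1`, `w = y / (a t)`. -/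
def S_QAP : Prop := ∀ (F : Type) [Field F] [NumberField F] (v : HeightOneSpectrum (𝓞 F)) (D a : F), D ≠ 0 → a ≠ 0 →
  (AQ v D a ↔ ∃ P : Pt (EQ D) (v.adicCompletion F), CQ D (v.adicCompletion F) P (a : v.adicCompletion F))

/-- JOB QLOC (uses `LK.S_BAS`, `LK.S_CPL`, `S_QCL`, `S_QAP`). Formal properties of the classes.
Proof.  (1) `b = β²` in `K`: `(u, w, s)` for `a` gives a solution for `a b` (`a b (..)`: `u' = u / β`, `s' = s`, `w' = w / β`).  (2) `Lpw 4 v n`: `n = ν⁴` in `K` (`n x⁴ = 1 + small = c²` with `c = 1 + small`, `c = d²`: Hensel's lemma or the Newton iteration as in the proof of `S_CPL`), `(u, w, s / ν)`.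
(3), (4): points.  (5) `u = w = 1`, `s = 0`. -/
def S_QLOC : Prop := ∀ (F : Type) [Field F] [NumberField F] (i : F), i ^ 2 = -1 → ∀ (v : HeightOneSpectrum (𝓞 F)) (D : F), D ≠ 0 →
  (∀ a b, AQ v D a → Lpw 2 v b → AQ v D (a * b)) ∧
  (∀ n a, Lpw 4 v n → AQ v D a → AQ v (D * n) a) ∧
  (∀ a, AQ v D a → AQ v D (a * D)) ∧
  (∀ a b, AQ v D a → AQ v D b → AQ v D (a * b)) ∧ AQ v D 1

/-- JOB QEISO (uses `LK.S_BAS`, `LK.S_CPL`, `S_QAP`, `S_NRM2`). The classes are isotropic for the Hilbert symbol.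
Proof.  `K = v.adicCompletion F`, `N` = norm of `K(√c) = AdjoinRoot (X² - c)`, `N(p + q √c) = p² - c q²`.  If `a` or `c` is a local square: `Hilb.pow`, `Hilb.anti`.  Otherwise both points are `≠ 0`.  (i) `t v D c = 0`: `c` is the class of `D` (trivial: `t v D D = 0` since `- 1 = i²`,
`- D = N(√D)`) or of `(x, y)`, `x = c u²`: `D = x (y / x)² - x² = N(i (x + (y / x) √x))`, `√x = u √c`.  (ii) both classes are those of `x₁`, `x₂ ≠ 0`; if `x₁ = x₂` then `t v a a = 0`.  Otherwise let `Y = l X + m` be the line through the two points and `x₃` the third zero of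
`X³ + D X - (l X + m)²`: `x₁ + x₂ + x₃ = l²`, `x₁ x₂ x₃ = m²`; with `n = m / (x₁ x₂)`: `N(l + √x₂) = l² - x₂ = x₁ + x₃ ≠ 0` (`x₂` is not a square) and `N(1 + i n √x₂) = 1 + n² x₂ = (x₁ + x₃) / x₁`, so `x₁` is a norm from `K(√x₂) = K(√c)`; `a / x₁` is a square, hence a norm: `t v a c = 0` (`S_NRM2`). -/
def S_QEISO : Prop := ∀ (F : Type) [Field F] [NumberField F] (i ζ : F), i ^ 2 = -1 → IsPrimitiveRoot ζ 2 →
  ∀ t : HeightOneSpectrum (𝓞 F) → F → F → ZMod 2, Hilb 2 ζ t →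
  ∀ (v : HeightOneSpectrum (𝓞 F)) (D a c : F), D ≠ 0 → AQ v D a → AQ v D c → t v a c = 0

/-- JOB IDX2 (uses `LK.S_BAS`, `LK.S_CPL`, `S_QCL`, `S_QFEND`, `S_QAP`, `S_QLOC`, `S_LIXG`, `S_VAL`). The number of the local classes.
Proof.  By `S_QLOC` (2) `D` may be replaced by `D n⁴`, `n ∈ ℕ`, so `D` is integral; `EQ D = EG 0 D`.  `e` from `S_VAL` (`p = 2`, `ζ = -1`), `θ` from `S_QFEND`: for `v(x)² > v(D)`: `v(y)² = v(x)³`, `v(X) = v(x) / v(2) = exp(2 e) v(x)`.  `K0 = {0, (0, 0)}`.  `S_LIXG` gives at least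
`2 · 2^(dv 2 v / 2)` points whose differences are not in the image of `θ`; choose a class of each point in `K` (`S_QCL`) and `b ∈ F^*` close to it; `AQ v D b` by `S_QAP`; if `b / b'` is a local square then the class of `P - P'` is a square (`S_QCL`), so `P - P' = θ R`. -/
def S_IDX2 : Prop := ∀ (F : Type) [Field F] [NumberField F] (i : F), i ^ 2 = -1 →
  ∀ (v : HeightOneSpectrum (𝓞 F)) (D : F), D ≠ 0 → ∃ B : Finset F, 2 ^ (dv 2 v / 2 + 1) ≤ B.card ∧
    (∀ b ∈ B, AQ v D b) ∧ ∀ b ∈ B, ∀ b' ∈ B, b ≠ b' → ¬ Lpw 2 v (b / b')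

/-- JOB QCX (uses `LK.S_BAS`, `LK.S_CPL`, `S_QLOC`, `S_IDX2`). The condition outside `2`.
Proof.  Compare the orders of `a w²`, `a² u⁴`, `D s⁴` modulo `2` and `4`.  (A) `4 ∣ ord D`: if `ord a` is odd then `ord(a w²)` is odd, `ord(a² u⁴) ≡ 2`, `ord(D s⁴) ≡ 0` modulo `4`: three different orders, impossible; so `ord a` is even.  Conversely, the two (`dv 2 v = 0`) inequivalent elements of
`S_IDX2` have even orders, so their symbols `sy v b` are the two elements of `ZMod 2` (`S_BAS` (7)), and `a` is equivalent to one of them; `S_QLOC` (1).  (B) `ord D` odd: `ord a` even: `ord(a w²)` and `ord(a² u⁴)` are even, `ord(D s⁴)` is odd: `a w² = a² u⁴ (1 + small)`, `1 + small` is a square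
(`S_BAS` (6)), `a` is a local square.  `ord a` odd: `a w² = D s⁴ (1 + small)`, so `a D` is a local square.  Conversely `S_QLOC`. -/
def S_QCX : Prop := ∀ (F : Type) [Field F] [NumberField F] (i ζ : F), i ^ 2 = -1 → IsPrimitiveRoot ζ 2 →
  ∀ (v : HeightOneSpectrum (𝓞 F)) (D a : F), ¬ Dp 2 v → D ≠ 0 → a ≠ 0 →
  (Q4 v D → (AQ v D a ↔ vl 2 v a = 0)) ∧ (vl 2 v D ≠ 0 → (AQ v D a ↔ ∃ j : ℕ, Lpw 2 v (a * D ^ j)))

/-- JOB QKUM (template: `Pool/Agent/Q190/CE/EKUM.lean`, `EKA.lean`, and the proof of `CE.S_EKUM2`). From cocycles to classes.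
Proof.  `f σ = h(σ) T`, `T = (0, 0)`, `h : Gal F → ZMod 2` a locally constant homomorphism (`T` is rational); `α ∈ F̄^*` with `σ α = (-1)^(h σ) α`, `a = α² ∈ F^*`.  Local solvability at `v`, `K = v.adicCompletion F`, `P ∈ E(K̄)` with `τ P - P = ι(f σ)`.  `P ∈ {0, T}`: `ι(α) ∈ K`, `a` is a square in `K`:
solution with `s = 0`.  Otherwise `P = (x, y)`, `x ≠ 0`, `β = y / ((1 + i) x)`, `β(P + T) = - β(P)` (`P + T = (D / x, - D y / x²)`), `β = u ι(α)`, `u ∈ K`.  `u ≠ 0`: the point `θ P = (X, Y)`, `X = β² = u² a`, is in `E(K)`: `Y² = X (X² + D)`, so `a w² = a² u⁴ + D` with `w = Y / (a u)`; in coordinates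
`Y = - β (X - x) - y` or so, fixed by all `τ` (or: `β⁴ + D = (β - x / (i β)..)²`: directly `x² - 2 i β² x + D = 0`, `w ι(α)`-type computation).  `u = 0`: `y = 0`, `x² = - D`, `x = c ι(α)`, `c ∈ K`: `a D = - D² / c²` is a square in `K`: solution with `u = 0`.  Last parts: if `a D^j = c²`: `j` even: `α ∈ F`, `f = 0`; `j`
odd: `α` is `c'√D`, `c' ∈ F`, `R = (i √D, 0)`, `R + T = (- i √D, 0)`, so `f` is the coboundary of `R`; the same for `f_k - f_k'` with `α_k / α_k'`. -/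
def S_QKUM : Prop := ∀ (F : Type) [Field F] [NumberField F] (i D : F), i ^ 2 = -1 → D ≠ 0 →
  ∀ (n : ℕ) (f : Fin n → Coch (EQ D)), (∀ k, TCoc2 D (f k)) →
  ∃ a : Fin n → F, (∀ k v, AQ v D (a k)) ∧ (∀ k (j : ℕ), IsPow 2 (a k * D ^ j) → Cob2 D (f k)) ∧
    ∀ k k' (j : ℕ), IsPow 2 (a k / a k' * D ^ j) → Cob2 D (f k - f k')

/-- JOB QFEW (uses `S_QLOC`, `S_QKUM`). The number of the cocycles.  As `S_CFEW`: the `2 (2^r + 1)` elements `a_k D^j`, `j = 0, 1`. -/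
def S_QFEW : Prop := ∀ (F : Type) [Field F] [NumberField F] (i D : F), i ^ 2 = -1 → D ≠ 0 → ¬ IsPow 2 D →
  ∀ r : ℕ, HasN 2 (fun a : F => ∀ v : HeightOneSpectrum (𝓞 F), AQ v D a) (2 ^ (r + 1)) → Few2 D (2 ^ r)

/-- JOB QRS (uses `S_QFEND`; template: the proof of `CE.S_ERS`). Ranks and `Ш[2]`.
Proof.  As in the docstring of `CE.S_ERS` with `2`, `{0, T}` instead of `3`, `{0, T, -T}`: `#(M / θ M) #(M / θ' M) = #(M / 2 M) = 2^rank`, `M = E(F)` modulo torsion; `#(M / θ M) #Ш[θ] ≤ N`, the same for `θ'`, `#Ш[2] ≤ #Ш[θ] #Ш[θ']`. -/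
def S_QRS : Prop := ∀ (F : Type) [Field F] [NumberField F] (i D : F), i ^ 2 = -1 → D ≠ 0 →
  ∀ N : ℕ, Few2 D N → Finite {x : Sha (EQ D) // (2 : ℕ) • x = 0} ∧
    2 ^ Module.finrank ℤ (Pt (EQ D) F) * Nat.card {x : Sha (EQ D) // (2 : ℕ) • x = 0} ≤ N ^ 2

/-- JOB QTRI (uses `S_QFEND`; template: the proof of `CE.S_ETRI`). Triviality.
Proof.  (A) of `CE.S_ETRI` is `Few2 D 1` for `f` and `0`; the rest as there, with `2` instead of `3`. -/
def S_QTRI : Prop := ∀ (F : Type) [Field F] [NumberField F] (i D : F), i ^ 2 = -1 → D ≠ 0 → Few2 D 1 → Triv2 D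

/-- JOB QSP (uses `LK.S_BAS`). From squares to fourth powers.
Proof.  At the small places `D / D0` is a local square: choose `b ∈ F^*` with `D / D0 / b²` so close to `1` that it is `Lpw 4` (approximation at the finitely many small places; `Lpw 2` for `D / D0` with a large `n`; a number close to `1` is `Lpw 4`: `1 + 16 m..` Newton iteration as in
`S_BAS` (6), or `1 + small = c²`, `c` close to `1`, `c = d²` up to small).  `v` not small, not a `q i`: `ord_v D = 2 m_v`; `s₁` = the product of the `π v` with `m_v` odd (finitely many).  `Spn` for `1 / (b s₁)` gives `x`; `s = s₁ x`: `D s² / D0 = (D / D0 / b²) (b s₁ x)²`, and `b s₁ x` is `Lpw 2`, so its square is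
`Lpw 4`. -/
def S_QSP : Prop := ∀ (F : Type) [Field F] [NumberField F] (y : ℕ), {v : HeightOneSpectrum (𝓞 F) | Sm y v}.Finite →
  (∀ v : HeightOneSpectrum (𝓞 F), ¬ Sm y v → ∃ π : F, π ≠ 0 ∧ vl 2 v π = 1 ∧
      ∀ w : HeightOneSpectrum (𝓞 F), ¬ Sm y w → w ≠ v → vl 2 w π = 0) →
  ∀ (k : ℕ) (q : Fin k → HeightOneSpectrum (𝓞 F)), Function.Injective q → (∀ i, ¬ Sm y (q i)) → Spn 2 y q →
  ∀ D0 D : F, D0 ≠ 0 → Fits 2 y D0 (fun _ => 1) q D → ∃ s : F, s ≠ 0 ∧ QFits y D0 q (D * s ^ 2)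

/-- JOB QLAW (uses `S_LAWX`, `S_BASE2`, `S_LOC2`, `S_HS22`, `LK.S_BAS`, `LK.S_CPL`, `S_QLOC`, `S_QEISO`, `S_VAL`, `S_UNQ`, `S_IDX2`, `S_QCX`, `S_QSP`). **The law for the quartic twists.**
Proof.  `S_LAWX` for `p = 2`, `z = 1`, `A v = AQ v D0`, `c v = dv 2 v / 2`, with a small `ε'`.  `LocX`: `S_QLOC`, `S_QEISO`, `S_IDX2`.  Sum: `S_VAL`.  If `D'` has `QFits` then it has `Fits` (`q` is injective), and (for all `v`, `AQ v D' a`) iff `CondX 2 y (AQ · D0) D' a` (small `v`: `S_QLOC` (2); `q i` and the others: `S_QCX`).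
If `D` has `Fits` then `D' / D` is a square (`S_UNQ`) and `CondX` for `D` and `D'` are equivalent.  The `q` with some `Fits` but no `QFits` are not `Spn` (`S_QSP`): at most `ε' #`. -/
def S_QLAW : Prop := ∀ (F : Type) [Field F] [NumberField F] (i : F), i ^ 2 = -1 → ∃ y0 : ℕ, ∀ y, y0 ≤ y →
  ∀ D0 : F, D0 ≠ 0 → ∀ (R : ℕ) (ε : ℝ), 0 < ε → ∃ k0 : ℕ, ∀ k, k0 ≤ k → Nest k fun X =>
    (Box y X : Set (Fin k → HeightOneSpectrum (𝓞 F))).Finite ∧
    0 < ({q ∈ (Box y X : Set (Fin k → HeightOneSpectrum (𝓞 F))) | ∃ D, QFits y D0 q D}.ncard : ℝ) ∧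
    (∀ r ≤ R, |({q ∈ (Box y X : Set (Fin k → HeightOneSpectrum (𝓞 F))) | (∃ D, QFits y D0 q D) ∧
          ∀ D, QFits y D0 q D → HasN 2 (fun a : F => ∀ v : HeightOneSpectrum (𝓞 F), AQ v D a) (2 ^ (r + 1))}.ncard : ℝ) -
        al 2 r * ({q ∈ (Box y X : Set (Fin k → HeightOneSpectrum (𝓞 F))) | ∃ D, QFits y D0 q D}.ncard : ℝ)| ≤
      ε * ({q ∈ (Box y X : Set (Fin k → HeightOneSpectrum (𝓞 F))) | ∃ D, QFits y D0 q D}.ncard : ℝ)) ∧
    ∀ (B : Finset (Fin k → HeightOneSpectrum (𝓞 F))) (N : (Fin k → HeightOneSpectrum (𝓞 F)) → ℕ),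
      (∀ q ∈ B, q ∈ (Box y X : Set (Fin k → HeightOneSpectrum (𝓞 F)))) →
      (∀ q ∈ B, ∃ D, QFits y D0 q D ∧ HasN 2 (fun a : F => ∀ v : HeightOneSpectrum (𝓞 F), AQ v D a) (N q)) →
      ∑ q ∈ B, (N q : ℝ) ≤ (2 + ε) * 2 *
        ({q ∈ (Box y X : Set (Fin k → HeightOneSpectrum (𝓞 F))) | ∃ D, QFits y D0 q D}.ncard : ℝ)

end Pool.Agent.Q283.EN
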