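import Pool.Agent.Q283.EN.Def

/-!
# Project EN (helper283): statements of the parts, the engine

GOAL (`S_LAWX`).  Let `D` run through an ensemble as in project LK (prescribed completions at the places above the rational primes
`≤ y`, orders `z i ≠ 0` modulo `p` at `k` primes `q i`, orders divisible by `p` at the others), and let `A v` be isotropic groups of local
classes at the small places with `∏ #A v = p^(#S + r2)`.  The group of the classes `a ∈ F^*` modulo `p`-th powers with `a ∈ A v` at the small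
places, `a` unramified where `D` is and `a ∈ ⟨D⟩` at the `q i` has exactly `p^(r+1)` elements for a share of the `D` which tends to
`al p r = ∏ (1 - p^(-2i-1)) / ∏_(i ≤ r) (p^i - 1)`: the law of the corank of a random symmetric matrix over `F_p`.

Application: cubic twists over every number field containing the third roots of unity, quartic twists `y² = x³ + D x` over every
number field containing `i`.

The case `p = 2` (with `i ∈ F`) of the results of project LK is needed first (`S_HS1A2`, .., `S_NRM2`).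
-/

set_option autoImplicit false

namespace Pool.Agent.Q283.EN

open NumberField IsDedekindDomain Filter Topology Finset
open Pool.Agent.Q283.LQ (Sm Box Nest nS)
open Pool.Agent.Q7.LK

/-! ## The case `p = 2`, `i ∈ F` of the results of project LK -/

section P

variable (p : ℕ) [Fact p.Prime] (F : Type) [Field F] [NumberField F] (ζ : F)

/-- the conclusion of `LK.S_HS1A` -/
def P_HS1A : Prop := ∀ c : F, c ≠ 0 → ¬ IsPow p c →
  {v : HeightOneSpectrum (𝓞 F) | Dp p v ∨ vl p v c ≠ 0}.Finite ∧ ∃ k : ℕ, ∀ x : F, x ≠ 0 →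
    (∀ v : HeightOneSpectrum (𝓞 F), (Dp p v ∨ vl p v c ≠ 0) → v.valuation F (x - 1) < WithZero.exp (-(k : ℤ))) →
    {v : HeightOneSpectrum (𝓞 F) | vl p v x ≠ 0}.Finite ∧
    ∑ᶠ v : {v : HeightOneSpectrum (𝓞 F) // ¬ (Dp p v ∨ vl p v c ≠ 0)}, vl p v.1 x * sy p ζ v.1 c = 0

/-- the conclusion of `LK.S_HS1N` -/
def P_HS1N : Prop := ∀ (M : Type) [Field M] [NumberField M] [Algebra F M] (c : F), c ≠ 0 → Kum p F M c →
  ∀ v : HeightOneSpectrum (𝓞 F), ¬ Dp p v → vl p v c = 0 → sy p ζ v c ≠ 0 →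
  ∀ y : M, y ≠ 0 → vl p v (Algebra.norm F y) = 0

/-- the conclusion of `LK.S_HS1` -/
def P_HS1 : Prop := ∀ c : F, c ≠ 0 → ∃ τ : HeightOneSpectrum (𝓞 F) → F → ZMod p,
  (∀ v a b, a ≠ 0 → b ≠ 0 → τ v (a * b) = τ v a + τ v b) ∧
  (∀ a, a ≠ 0 → {v | τ v a ≠ 0}.Finite ∧ ∑ᶠ v, τ v a = 0) ∧
  (∀ v a, Lpw p v a → τ v a = 0) ∧
  (∀ v, ¬ Dp p v → vl p v c = 0 → ∀ a, a ≠ 0 → τ v a = vl p v a * sy p ζ v c) ∧
  ∀ (M : Type) [Field M] [NumberField M] [Algebra F M], Kum p F M c → ∀ y : M, y ≠ 0 →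
    ∀ v, τ v (Algebra.norm F y) = 0

/-- the conclusion of `LK.S_REC` -/
def P_REC : Prop := ∀ y, p ≤ y → ∀ b c : F, b ≠ 0 → c ≠ 0 →
  (∀ v : HeightOneSpectrum (𝓞 F), ¬ Sm y v → v.valuation F b = 1 ∨ v.valuation F c = 1) → Nn p y b →
  {v : HeightOneSpectrum (𝓞 F) | ¬ Sm y v ∧ (vl p v b ≠ 0 ∨ vl p v c ≠ 0)}.Finite ∧
  ∑ᶠ v : {v : HeightOneSpectrum (𝓞 F) // ¬ Sm y v}, vl p v.1 b * sy p ζ v.1 c =
    ∑ᶠ v : {v : HeightOneSpectrum (𝓞 F) // ¬ Sm y v}, vl p v.1 c * sy p ζ v.1 b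

/-- the conclusion of `LK.S_LOC` -/
def P_LOC : Prop := ∀ y : ℕ, p ≤ y →
  {v : HeightOneSpectrum (𝓞 F) | Sm y v}.Finite ∧
  ∀ B : Finset F, (∀ b ∈ B, b ≠ 0) → (∀ b ∈ B, ∀ b' ∈ B, b ≠ b' → ¬ Nn p y (b / b')) →
    B.card ≤ p ^ (2 * nS F y + Module.finrank ℚ F)

/-- the conclusion of `LK.S_BAS1` -/
def P_BAS1 : Prop := ∃ y0 : ℕ, ∀ y, y0 ≤ y →
  ∃ (f : ℕ) (u r : Fin f → F) (P : HeightOneSpectrum (𝓞 F) → F), Bas1 p ζ y f u r P ∧
    InfinitePlace.nrComplexPlaces F + nS F y ≤ f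

/-- the conclusion of `LK.S_BASE` -/
def P_BASE : Prop := ∃ y0 : ℕ, ∀ y, y0 ≤ y →
  ∃ (f : ℕ) (u r : Fin f → F) (π : HeightOneSpectrum (𝓞 F) → F)
    (g : (Fin f → ZMod p) → (Fin f → ZMod p) → ZMod p), Base p ζ y f u r π g ∧
    InfinitePlace.nrComplexPlaces F + nS F y ≤ f

/-- the conclusion of `LK.S_NRM` -/
def P_NRM : Prop := ∀ t : HeightOneSpectrum (𝓞 F) → F → F → ZMod p, Hilb p ζ t →
  ∀ (v : HeightOneSpectrum (𝓞 F)) (D : F), D ≠ 0 → ¬ Lpw p v D → ∀ a : F, a ≠ 0 →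
  (∃ s : AdjoinRoot (Polynomial.X ^ p - Polynomial.C (D : v.adicCompletion F)),
      Algebra.norm (v.adicCompletion F) s = (a : v.adicCompletion F)) → t v a D = 0

end P

/-- JOB HS1A2 (uses `LK.S_BAS`). Artin's law of reciprocity for `F(√c)`, `i ∈ F`.
Proof.  Adapt the proof of `LK.S_HS1A` (`Pool/Agent/Q150/LK`, theorem `hs1a`; see also the docstring) to `p = 2`: it uses `p ≠ 2` only to know that
`F` is totally complex (no condition of positivity), which follows here from `i ∈ F`.  Compare `Pool.Agent.Q182.LQ.Rec`. -/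
def S_HS1A2 : Prop := ∀ (F : Type) [Field F] [NumberField F] (i ζ : F), i ^ 2 = -1 → IsPrimitiveRoot ζ 2 → P_HS1A 2 F ζ

/-- JOB HS1N2 (uses `LK.S_BAS`). Inert primes.  Adapt `LK.S_HS1N` (`Pool/Agent/Q285/LK`, theorem `hs1n`) to `p = 2`. -/
def S_HS1N2 : Prop := ∀ (F : Type) [Field F] [NumberField F] (i ζ : F), i ^ 2 = -1 → IsPrimitiveRoot ζ 2 → P_HS1N 2 F ζ

/-- JOB HS12 (uses `LK.S_BAS`, `S_HS1A2`, `S_HS1N2`).  Adapt `LK.S_HS1` (`Pool/Agent/Q65/LK`, theorem `hs1`) to `p = 2`. -/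
def S_HS12 : Prop := ∀ (F : Type) [Field F] [NumberField F] (i ζ : F), i ^ 2 = -1 → IsPrimitiveRoot ζ 2 → P_HS1 2 F ζ

/-- JOB HS22 (uses `LK.S_BAS`, `S_HS12`). The Hilbert symbols.  Adapt `LK.S_HS2` (`Pool/Agent/Q162/LK`, theorem `hs2`) to `p = 2`; `-1 = i²` is a square,
so `t v a a = t v (-a) a = 0` as there. -/
def S_HS22 : Prop := ∀ (F : Type) [Field F] [NumberField F] (i ζ : F), i ^ 2 = -1 → IsPrimitiveRoot ζ 2 →
  ∃ t : HeightOneSpectrum (𝓞 F) → F → F → ZMod 2, Hilb 2 ζ t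

/-- JOB REC2 (uses `LK.S_BAS`, `S_HS22`).  Adapt `LK.S_REC` (`Pool/Agent/Q241/LK`, theorem `rec`) to `p = 2`. -/
def S_REC2 : Prop := ∀ (F : Type) [Field F] [NumberField F] (i ζ : F), i ^ 2 = -1 → IsPrimitiveRoot ζ 2 → P_REC 2 F ζ

/-- JOB LOC2.  From `Pool.Agent.Q283.LQ.t_LOC` (`Pool/Agent/Q283/LQ/All.lean`; `LQ.Lsq v a` is `Lpw 2 v a`; `LQ.Nn y b` has moreover the
positivity at the real embeddings: there are none since `i ∈ F`, `nrRealPlaces F = 0`; `b / b' = b b' (b'⁻¹)²`). -/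
def S_LOC2 : Prop := ∀ (F : Type) [Field F] [NumberField F] (i : F), i ^ 2 = -1 → P_LOC 2 F

/-- JOB BAS12 (uses `LK.S_BAS`, `S_LOC2`, `LK.S_SU`, `S_REC2`, `LK.S_CHEB`).  Adapt `LK.S_BAS1` (`Pool/Agent/Q265/LK`, theorem `bas1`) to `p = 2`. -/
def S_BAS12 : Prop := ∀ (F : Type) [Field F] [NumberField F] (i ζ : F), i ^ 2 = -1 → IsPrimitiveRoot ζ 2 → P_BAS1 2 F ζ

/-- JOB BASE2 (uses `LK.S_BAS`, `S_BAS12`, `S_REC2`, `LK.S_CHEB`).  Adapt `LK.S_BASE` (`Pool/Agent/Q153/LK`, theorem `base`) to `p = 2`. -/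
def S_BASE2 : Prop := ∀ (F : Type) [Field F] [NumberField F] (i ζ : F), i ^ 2 = -1 → IsPrimitiveRoot ζ 2 → P_BASE 2 F ζ

/-- JOB NRM2 (uses `LK.S_BAS`).  Adapt `LK.S_NRM` (`Pool/Agent/Q262/LK`, theorem `nrm`) to `p = 2`. -/
def S_NRM2 : Prop := ∀ (F : Type) [Field F] [NumberField F] (i ζ : F), i ^ 2 = -1 → IsPrimitiveRoot ζ 2 → P_NRM 2 F ζ

/-! ## The form on the classes -/

/-- JOB FRM (uses `LK.S_BAS`, `LK.S_CHEB`). The sum of the Hilbert symbols at the small places is the form `BB g`.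
Proof.  `S = {v | Sm y v}`, finite; `T(a, b) = ∑_(v ∈ S) t v a b = - ∑_(v ∉ S) t v a b` (`Hilb.sum`), additive in both variables and antisymmetric
(`Hilb.mul`, `Hilb.anti`), `T(a, b) = 0` if `Nn p y b` (`Hilb.pow`, `Hilb.anti`), so it depends only on the classes of `a`, `b` (`Base.cls`; `Nn p y` is closed under products
and inverses and contains the `p`-th powers).  The class of `π q` is `(φ_q, 0)`, `φ_q l = sy q (u l)` (`Base.pc`), the class of `mon u c` is `(0, - c)`.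
`T(mon u c, mon u c') = 0` and `T(mon u c, π q) = ∑_(v ∉ S) t v (π q) (mon u c) = sy q (mon u c) = dot φ_q c` (`Hilb.unr`, `Base.uo`, `Base.po`; `S_BAS` (7)).  For `q ≠ q'`:
`T(π q, π q') = - t q (π q) (π q') - t q' (π q) (π q') = - sy q (π q') + sy q' (π q) = g φ_q φ_q'` (`Base.rcp`).  For all `φ` there are infinitely many `q ∉ S` with `φ_q = φ`
(`S_CHEB`, `Base.ind`), so every class `(φ, c)` is that of `π q / mon u c`, with `q` outside any finite set, and `g φ φ' = T(π q, π q')` for suitable `q ≠ q'`.  So `g` is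
additive (`π q π q' / π q''` with `φ_q'' = φ_q + φ_q'` has class `0`), antisymmetric; `g φ φ = T(π q, π q') = T(π q, π q) = 0` for `φ_q = φ_q'`, where `T(a, a) = 0`: `t v a a = 0`
(`p` odd: `Hilb.anti`; `p = 2`: `- a = i² a`, `t v a a = t v (-a) a`, and `- a = N(√a)` for the norm of `F(√a)` if `a` is not a square (`Hilb.nrm`), `Hilb.pow` otherwise).
The last formula for `a = π q / mon u c`, `b = π q' / mon u c'`. -/
def S_FRM : Prop := ∀ (p : ℕ) [Fact p.Prime] (F : Type) [Field F] [NumberField F] (ζ : F), IsPrimitiveRoot ζ p → Hi p F →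
  ∀ t : HeightOneSpectrum (𝓞 F) → F → F → ZMod p, Hilb p ζ t → ∀ (y f : ℕ) (u r : Fin f → F)
  (π : HeightOneSpectrum (𝓞 F) → F) (g : (Fin f → ZMod p) → (Fin f → ZMod p) → ZMod p),
  Base p ζ y f u r π g → {v : HeightOneSpectrum (𝓞 F) | Sm y v}.Finite → Alt g ∧
  ∀ (a b : F) (x x' : (Fin f → ZMod p) × (Fin f → ZMod p)), a ≠ 0 → b ≠ 0 →
    Nn p y (a * mon r x.1 * mon u x.2) → Nn p y (b * mon r x'.1 * mon u x'.2) →
    ∑ᶠ v : {v : HeightOneSpectrum (𝓞 F) // Sm y v}, t v.1 a b = BB g x x'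

/-- JOB EEX (uses `LK.S_BAS`, `P_LOC`, the last part of `S_FRM`). The local classes.
Proof.  `E` = the set of the classes `x` of the `a ≠ 0` with `A v a` for all `v ∈ S` (`Base.cls`; independent of `a` by `LocX.mul`, `LocX.pow`, `S_BAS`; a submodule:
products, and `A v (a^n)`; `mon r (x + x')` and `mon r x mon r x'` differ by a `p`-th power; `- x = (p - 1) x`).  Isotropic: `FRM` and `LocX.iso`.  Number: for `v ∈ S` take `B v` from `LocX.num`; for every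
`(b_v) ∈ ∏ B v` choose by approximation `a ∈ F^*` with `v(a / b_v - 1)` so small that `Lpw p v (a / b_v)` (`S_BAS` (6)); different tuples give different classes, so
`#E ≥ ∏_(v ∈ S) p^(c v + 1) = p^(#S + ∑ c v) ≥ p^(#S + r2)`.  Finally `f ≤ #S + r2`: by `Base.cls` there are `p^(2f)` elements (`(mon r φ mon u c)⁻¹`) which are pairwise inequivalent
modulo `Nn p y`, so `2 f ≤ 2 #S + [F : ℚ]` by `P_LOC`, and `[F : ℚ] = 2 r2` (`F` is totally complex). -/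
def S_EEX : Prop := ∀ (p : ℕ) [Fact p.Prime] (F : Type) [Field F] [NumberField F] (ζ : F), IsPrimitiveRoot ζ p → Hi p F →
  P_LOC p F → ∀ t : HeightOneSpectrum (𝓞 F) → F → F → ZMod p, ∀ (y f : ℕ) (u r : Fin f → F)
  (π : HeightOneSpectrum (𝓞 F) → F) (g : (Fin f → ZMod p) → (Fin f → ZMod p) → ZMod p), Base p ζ y f u r π g →
  (∀ (a b : F) (x x' : (Fin f → ZMod p) × (Fin f → ZMod p)), a ≠ 0 → b ≠ 0 →
    Nn p y (a * mon r x.1 * mon u x.2) → Nn p y (b * mon r x'.1 * mon u x'.2) →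
    ∑ᶠ v : {v : HeightOneSpectrum (𝓞 F) // Sm y v}, t v.1 a b = BB g x x') →
  ∀ (A : HeightOneSpectrum (𝓞 F) → F → Prop) (c : HeightOneSpectrum (𝓞 F) → ℕ), LocX p t y A c →
  InfinitePlace.nrComplexPlaces F ≤ ∑ᶠ v, c v →
  ∃ E : Submodule (ZMod p) ((Fin f → ZMod p) × (Fin f → ZMod p)), IsoX g E ∧
    ∀ (a : F) (x : (Fin f → ZMod p) × (Fin f → ZMod p)), a ≠ 0 → Nn p y (a * mon r x.1 * mon u x.2) →
      (x ∈ E ↔ ∀ v : HeightOneSpectrum (𝓞 F), Sm y v → A v a)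

/-- JOB SSX (uses `LK.S_BAS`, `LK.S_SH1`). The classes are the solutions of the table.
Proof.  Let `D` fit.  As in the proof of `LK.S_SH2M` (`Pool/Agent/Q153/LK`, theorem `sh2m`) an element `a` with `CondX` has a unique solution `(c, Y)`: `Y_j = vl (q j) a`, `a * mon u c /
∏ π (q j)^(Y j)` a `p`-th power (`Base.full`, `Base.ind`), and the class of `a` is `(∑ Y_j φ_j, c)`.  The condition at `q j` (`CondX.ram`: some `a D^s` is `Lpw`, so `s ≡ - Y_j / z_j` modulo `p`,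
and `sy (q j) (a D^s) = 0`) is the equation at `j`; both directions: `vl (q j) (a D^s) = 0` and `sy (q j) (a D^s) = 0` imply `Lpw` (`S_BAS` (7)).  Conversely a solution `(c, Y)` gives
`a = ∏ π (q j)^(Y j) / mon u c` with `CondX`.  Two `a` have the same solution iff they differ by a `p`-th power. -/
def S_SSX : Prop := ∀ (p : ℕ) [Fact p.Prime] (F : Type) [Field F] [NumberField F] (ζ : F), IsPrimitiveRoot ζ p →
  ∀ (y f : ℕ) (u r : Fin f → F)
  (π : HeightOneSpectrum (𝓞 F) → F) (g : (Fin f → ZMod p) → (Fin f → ZMod p) → ZMod p),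
  Base p ζ y f u r π g → ∀ (A : HeightOneSpectrum (𝓞 F) → F → Prop)
  (E : Submodule (ZMod p) ((Fin f → ZMod p) × (Fin f → ZMod p))),
  (∀ (a : F) (x : (Fin f → ZMod p) × (Fin f → ZMod p)), a ≠ 0 → Nn p y (a * mon r x.1 * mon u x.2) →
      (x ∈ E ↔ ∀ v : HeightOneSpectrum (𝓞 F), Sm y v → A v a)) →
  ∀ (D0 : F) (ψ w : Fin f → ZMod p), D0 ≠ 0 → Nn p y (D0 * mon r ψ * mon u w) →
  ∀ (k : ℕ) (z : Fin k → ZMod p) (q : Fin k → HeightOneSpectrum (𝓞 F)), (∀ i, z i ≠ 0) →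
  Function.Injective q → (∀ i, ¬ Sm y (q i)) → ∀ τ : Tab p f k, Tb ζ u π τ q →
  ∀ D : F, Fits p y D0 z q D → ∀ N : ℕ, HasN p (CondX p y A D) N ↔ N = Nat.card (SolX g w z E τ)

/-- JOB SPN (uses `LK.S_BAS`). Spanning symbols.
Proof.  Let `x` be the class of `b`: `Nn p y (b * mon r x.1 * mon u x.2)` (`Base.cls`), `x.1 = ∑ Y_j φ_j`.  `X = ∏ π (q j)^(Y j) / mon u x.2` has the same class (`Base.pc`; `mon r` is
multiplicative up to `p`-th powers), so `Nn p y (X / b)`; `Base.po`, `Base.uo`. -/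
def S_SPN : Prop := ∀ (p : ℕ) [Fact p.Prime] (F : Type) [Field F] [NumberField F] (ζ : F), IsPrimitiveRoot ζ p →
  ∀ (y f : ℕ) (u r : Fin f → F)
  (π : HeightOneSpectrum (𝓞 F) → F) (g : (Fin f → ZMod p) → (Fin f → ZMod p) → ZMod p),
  Base p ζ y f u r π g → ∀ (k : ℕ) (q : Fin k → HeightOneSpectrum (𝓞 F)), Function.Injective q → (∀ i, ¬ Sm y (q i)) →
  ∀ τ : Tab p f k, Tb ζ u π τ q → Submodule.span (ZMod p) (Set.range τ.1) = ⊤ → Spn p y q

/-! ## Tables (only Mathlib and linear algebra) -/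

/-- JOB ALG (only Mathlib). The solutions are the radical of a uniformly distributed symmetric form.
Proof.  `V = (Fin f → ZMod p)`.  `E` is maximal isotropic: `BB g` is a nondegenerate alternating form on `V × V`, so `#E = p^f` and `E^⊥ = E`.  `X = {x = (c, Y) : (∑ Y φ, c) ∈ E}`,
`K0 = {c : (0, c) ∈ E}`, `dim K0 = h ≤ f`, `V_E = {Y : ∑ Y φ ∈ pr_1 E}`; since the `φ_j` span `V`: `dim X = k`, `dim V_E = k - h`, and `X → V_E` is surjective with kernel `K0`.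
Let `cnd_j(x) = ∑_i (Y_i - Y_j z_j⁻¹ z_i) Mt_ij - dot φ_j (c - Y_j z_j⁻¹ w)` and `S(x, x') = ∑_j Y'_j cnd_j(x)` for `x, x' ∈ X`.  Then
`S(x, x') - S(x', x) = ∑_(i<j) (Y_i Y'_j - Y'_i Y_j) (Mt_ij - Mt_ji) + dot (∑ Y φ) c' - dot (∑ Y' φ) c = BB g (∑ Y φ, c) (∑ Y' φ, c') = 0` (`Mt_ij - Mt_ji = g φ_i φ_j` for `i < j`).  So `S` is
symmetric; it vanishes for `x' ∈ K0` (`Y' = 0`), so for `x ∈ K0` too, and for `x = (w, z)` (`cnd = 0`; `∑ z φ = ψ`, `(ψ, w) ∈ E`): `S` is a symmetric form on `V_E / z`, `dim = n = k - 1 - h`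
(`z ≠ 0` as `k ≥ 1`).  RADICAL: the annihilator of `V_E` in `F_p^k` is `{(dot φ_j c'')_j : c'' ∈ (pr_1 E)^⊥}` and `(pr_1 E)^⊥ = {c'' : (0, c'') ∈ E^⊥ = E} = K0`.  So `x ∈ X` is in the radical
iff `cnd_j(x) = - dot φ_j c'' = cnd_j((c'', 0))` for some `c'' ∈ K0`, i.e. `x - (c'', 0) ∈ SolX`; and `SolX ∩ K0 = 0` (`dot φ_j c'' = 0` for all `j` implies `c'' = 0`).  So
`#SolX = #radical of S on V_E = p #radical of S on V_E / z`.  UNIFORM: as a function of `t = τ.2`, with `ρ = Y / z`, `S_t = S_0 - ∑_(i<j) t_ij z_i z_j (ρ_i - ρ_j) (ρ'_i - ρ'_j)`, and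
`t ↦ ∑_(i<j) t_ij z_i z_j (ρ_i - ρ_j) (ρ'_i - ρ'_j)` is a bijection onto the symmetric forms on `F_p^k / z` (a symmetric matrix with row sums `0` is determined by its entries off the diagonal; or
dimensions), and the restriction of symmetric forms to the subspace `V_E / z` is surjective and linear, so every symmetric form on `V_E / z` belongs to equally many `t`. -/
def S_ALG : Prop := ∀ (p : ℕ) [Fact p.Prime] (f k : ℕ) (g : (Fin f → ZMod p) → (Fin f → ZMod p) → ZMod p)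
  (w ψ : Fin f → ZMod p) (z : Fin k → ZMod p) (E : Submodule (ZMod p) ((Fin f → ZMod p) × (Fin f → ZMod p))),
  1 ≤ k → Alt g → IsoX g E → (ψ, w) ∈ E → (∀ i, z i ≠ 0) →
  ∀ φ : Fin k → Fin f → ZMod p, ∑ j, z j • φ j = ψ → Submodule.span (ZMod p) (Set.range φ) = ⊤ →
  ∃ n : ℕ, n + 1 ≤ k ∧ k ≤ n + 1 + f ∧ ∀ r : ℕ,
    Nat.card {t : {x : Fin k × Fin k // x.1 < x.2} → ZMod p // Nat.card (SolX g w z E (φ, t)) = p ^ (r + 1)} * nSy p n =
      nRk p n r * Nat.card ({x : Fin k × Fin k // x.1 < x.2} → ZMod p)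

/-- JOB SYML. The law of the corank of a random symmetric matrix over `F_p`.
Proof.  Templates: `p = 3`: `Pool.Agent.Y703.XL.S_LIM` (`t_LIM` in `Pool/Agent/Y703/XL/Fin.lean`, proof `Pool/Agent/Y275/XL/LIM.lean`), moments and law: `Pool/Agent/Q283/T3`; `p = 2`:
`Pool/Agent/Y697/PQ/Ten.lean`, `Pool/Agent/Q227/MX/SYM.lean`.  One way: the number of the symmetric matrices of size `n` with kernel `U` (`dim U = r`) is the number `I(n - r)` of the
invertible ones of size `n - r`, so `nRk p n r = G(n, r) I(n - r)`, `G` = number of the subspaces, `∑_r G(n, r) I(n - r) = p^(n(n+1)/2)`, which gives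
`I(m) = p^(m(m+1)/2) ∏_(i odd ≤ m) (1 - p^(-i))` by induction (for instance `I(m) = (p^m - 1) p^(m-1).. `: expansion along a row: `I(m) = p^(m-1) (p - 1) I(m-1)..`; see the templates). -/
def S_SYML : Prop := ∀ (p : ℕ) [Fact p.Prime] (r : ℕ),
  Tendsto (fun n : ℕ => (nRk p n r : ℝ) / nSy p n) atTop (𝓝 (al p r))

open Classical in
/-- JOB TABL (uses `S_ALG`, `S_SYML`, `LK.S_COUNT`). The law for the tables.
Proof.  The tables with `∑ z_j φ_j = ψ` whose `φ_j` do not span: `k - 1` of the `φ_j` are free, for each of the at most `p^f` hyperplanes the share is at most `p^(-(k-1))`.  The spanning ones: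
`S_ALG` for every `φ`, `S_SYML` (uniformly: `n ≥ k - 1 - f`).  The mean: every coset of the line spanned by `(w, z)` in `SolX` (a subgroup containing `(w, z)`) contains exactly one element
with `Y_0 = 0`, so `#SolX = p (1 + #{x : IsSol g w z E x})` (`E` as a finite set), and `S_COUNT` with `#E ≤ p^f` (isotropic for a nondegenerate form on a space of dimension `2 f`). -/
def S_TABL : Prop := ∀ (p : ℕ) [Fact p.Prime] (f R : ℕ) (ε : ℝ), 0 < ε → ∃ k0 : ℕ, ∀ k, k0 ≤ k →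
  ∀ (g : (Fin f → ZMod p) → (Fin f → ZMod p) → ZMod p)
  (w ψ : Fin f → ZMod p) (z : Fin k → ZMod p) (E : Submodule (ZMod p) ((Fin f → ZMod p) × (Fin f → ZMod p))),
  Alt g → IsoX g E → (ψ, w) ∈ E → (∀ i, z i ≠ 0) →
  (∀ r ≤ R, |((univ.filter (fun τ : Tab p f k => ∑ j, z j • τ.1 j = ψ ∧ Nat.card (SolX g w z E τ) = p ^ (r + 1))).card : ℝ) -
      al p r * ((univ.filter (fun τ : Tab p f k => ∑ j, z j • τ.1 j = ψ)).card : ℝ)| ≤
        ε * ((univ.filter (fun τ : Tab p f k => ∑ j, z j • τ.1 j = ψ)).card : ℝ)) ∧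
  ((univ.filter (fun τ : Tab p f k => ∑ j, z j • τ.1 j = ψ ∧ Submodule.span (ZMod p) (Set.range τ.1) ≠ ⊤)).card : ℝ) ≤
        ε * ((univ.filter (fun τ : Tab p f k => ∑ j, z j • τ.1 j = ψ)).card : ℝ) ∧
  ∑ τ ∈ univ.filter (fun τ : Tab p f k => ∑ j, z j • τ.1 j = ψ), (Nat.card (SolX g w z E τ) : ℝ) ≤
        (2 + ε) * p * ((univ.filter (fun τ : Tab p f k => ∑ j, z j • τ.1 j = ψ)).card : ℝ)

open Classical in
/-- JOB TRF (uses `LK.S_NEST`, `LK.S_SH1`). From the tables to the ensemble.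
Proof.  Every `q ∈ Box y X` has exactly one table.  For `k ≥ 1` the number of the tables with `∑ z_j φ_j = ψ` is `p^(k f + k(k-1)/2) / p^f > 0`.  `S_NEST` for all tables with a small `ε'` (finitely
many; `Nest` is compatible with finite conjunctions and monotone: `nest_mono` in `Pool/Agent/Q7/LK/Main.lean`, `nest_and` in `Pool/Agent/Q14/LK`), the `q` such that some `D` fits are the `q` with
a table with `∑ z_j φ_j = ψ` (`S_SH1`), their share is `p^(-f)` up to `#tables ε'`.  Compare `Pool/Agent/Q14/LK/Share.lean`. -/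
def S_TRF : Prop := ∀ (p : ℕ) [Fact p.Prime] (F : Type) [Field F] [NumberField F] (ζ : F), IsPrimitiveRoot ζ p →
  ∀ (y f : ℕ) (u r : Fin f → F)
  (π : HeightOneSpectrum (𝓞 F) → F) (g : (Fin f → ZMod p) → (Fin f → ZMod p) → ZMod p),
  Base p ζ y f u r π g → ∀ (D0 : F) (ψ w : Fin f → ZMod p), D0 ≠ 0 → Nn p y (D0 * mon r ψ * mon u w) →
  ∀ (k : ℕ) (z : Fin k → ZMod p), 1 ≤ k → (∀ i, z i ≠ 0) → ∀ ε : ℝ, 0 < ε → Nest k fun X =>
    (Box y X : Set (Fin k → HeightOneSpectrum (𝓞 F))).Finite ∧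
    0 < ({q ∈ (Box y X : Set (Fin k → HeightOneSpectrum (𝓞 F))) | ∃ D, Fits p y D0 z q D}.ncard : ℝ) ∧
    (∀ q ∈ (Box y X : Set (Fin k → HeightOneSpectrum (𝓞 F))), ∃ τ : Tab p f k, Tb ζ u π τ q) ∧
    ∀ P : Tab p f k → Prop,
      |({q ∈ (Box y X : Set (Fin k → HeightOneSpectrum (𝓞 F))) | (∃ D, Fits p y D0 z q D) ∧
            ∃ τ, Tb ζ u π τ q ∧ P τ}.ncard : ℝ) * ((univ.filter (fun τ : Tab p f k => ∑ j, z j • τ.1 j = ψ)).card : ℝ) -
        ((univ.filter (fun τ : Tab p f k => ∑ j, z j • τ.1 j = ψ ∧ P τ)).card : ℝ) *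
          ({q ∈ (Box y X : Set (Fin k → HeightOneSpectrum (𝓞 F))) | ∃ D, Fits p y D0 z q D}.ncard : ℝ)| ≤
      ε * ({q ∈ (Box y X : Set (Fin k → HeightOneSpectrum (𝓞 F))) | ∃ D, Fits p y D0 z q D}.ncard : ℝ) *
        ((univ.filter (fun τ : Tab p f k => ∑ j, z j • τ.1 j = ψ)).card : ℝ)

/-- JOB LAWX (uses `P_BASE`, `P_LOC`, `S_FRM`, `S_EEX`, `S_SSX`, `S_SPN`, `S_TABL`, `S_TRF`). **The law.**
Proof.  Put the parts together: `(ψ, w)` the class of `D0`, in `E` by `S_EEX` since `A v D0` at the small places; the share of `q` with `#classes = p^(r+1)` is that of the tables with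
`#SolX = p^(r+1)` (`S_SSX`, `S_TRF` with `P τ = (#SolX = p^(r+1))`).  The mean: `#SolX ≤ p^(f+k)`, so `∑_q N q ≤ ∑_m m #{q : #SolX = m}`, `S_TRF` with `P τ = (#SolX = m)` for all `m` at once and with an
`ε` which is small in terms of `k` (`Nest` holds for every `ε`; `k` is fixed), and `S_TABL`. -/
def S_LAWX : Prop := ∀ (p : ℕ) [Fact p.Prime] (F : Type) [Field F] [NumberField F] (ζ : F), IsPrimitiveRoot ζ p → Hi p F →
  P_BASE p F ζ → P_LOC p F → ∀ t : HeightOneSpectrum (𝓞 F) → F → F → ZMod p, Hilb p ζ t → ∃ y0 : ℕ, ∀ y, y0 ≤ y →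
  ∀ (A : HeightOneSpectrum (𝓞 F) → F → Prop) (c : HeightOneSpectrum (𝓞 F) → ℕ), LocX p t y A c →
  InfinitePlace.nrComplexPlaces F ≤ ∑ᶠ v, c v → ∀ D0 : F, D0 ≠ 0 → (∀ v, Sm y v → A v D0) →
  ∀ (R : ℕ) (ε : ℝ), 0 < ε → ∃ k0 : ℕ, ∀ k, k0 ≤ k → ∀ z : Fin k → ZMod p, (∀ i, z i ≠ 0) → Nest k fun X =>
    (Box y X : Set (Fin k → HeightOneSpectrum (𝓞 F))).Finite ∧
    0 < ({q ∈ (Box y X : Set (Fin k → HeightOneSpectrum (𝓞 F))) | ∃ D, Fits p y D0 z q D}.ncard : ℝ) ∧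
    (∀ r ≤ R, |({q ∈ (Box y X : Set (Fin k → HeightOneSpectrum (𝓞 F))) |
          ∃ D, Fits p y D0 z q D ∧ HasN p (CondX p y A D) (p ^ (r + 1))}.ncard : ℝ) -
        al p r * ({q ∈ (Box y X : Set (Fin k → HeightOneSpectrum (𝓞 F))) | ∃ D, Fits p y D0 z q D}.ncard : ℝ)| ≤
      ε * ({q ∈ (Box y X : Set (Fin k → HeightOneSpectrum (𝓞 F))) | ∃ D, Fits p y D0 z q D}.ncard : ℝ)) ∧
    ({q ∈ (Box y X : Set (Fin k → HeightOneSpectrum (𝓞 F))) | (∃ D, Fits p y D0 z q D) ∧ ¬ Spn p y q}.ncard : ℝ) ≤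
      ε * ({q ∈ (Box y X : Set (Fin k → HeightOneSpectrum (𝓞 F))) | ∃ D, Fits p y D0 z q D}.ncard : ℝ) ∧
    ∀ (B : Finset (Fin k → HeightOneSpectrum (𝓞 F))) (N : (Fin k → HeightOneSpectrum (𝓞 F)) → ℕ),
      (∀ q ∈ B, q ∈ (Box y X : Set (Fin k → HeightOneSpectrum (𝓞 F)))) →
      (∀ q ∈ B, ∃ D, Fits p y D0 z q D ∧ HasN p (CondX p y A D) (N q)) →
      ∑ q ∈ B, (N q : ℝ) ≤ (2 + ε) * p *
        ({q ∈ (Box y X : Set (Fin k → HeightOneSpectrum (𝓞 F))) | ∃ D, Fits p y D0 z q D}.ncard : ℝ)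

end Pool.Agent.Q283.EN
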