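import Pool.Agent.Q283.EN.Stm2
import Pool.Agent.Q285.CE.EDD
import Pool.Agent.Q285.CE.ELOC

/-!
# Project EN: the condition `AE` and the points
-/

set_option autoImplicit false

namespace Pool.Agent.Q283.EN

open NumberField IsDedekindDomain WeierstrassCurve
open Pool.Agent.Q7.CE Pool.Agent.Q285.CE
open Pool.Agent.Q285.LK (cpl_coe)
open Pool.Agent.TH841.SH.D (Pt)

section L

variable {F : Type} [Field F] {L : Type} [Field L] [Algebra F L]

theorem ak_cls [CharZero F] {D : F} (hD : D ≠ 0) {a : L} (ha : a ≠ 0) :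
    AK (algebraMap F L D) a ↔ ∃ P : Pt (ED D) L, Cls D L P a := by
  have : CharZero L := charZero_of_injective_algebraMap (algebraMap F L).injective
  have hD' : algebraMap F L D ≠ 0 := (map_ne_zero _).2 hD
  have hV := isD_base D L
  constructor
  · rintro ⟨u, w, s, hne, h⟩
    by_cases hs : s = 0
    · subst hs
      have hu : u ≠ 0 := by
        rintro rfl
        have hw : w = 0 := by
          have h1 : w ^ 3 = 0 := by rw [h]; ring
          exact pow_eq_zero_iff three_ne_zero |>.1 h1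
        rcases hne with h1 | h1 | h1
        · exact h1 rfl
        · exact h1 hw
        · exact h1 rfl
      have h1 : w ^ 3 = a ^ 2 * u ^ 3 := by rw [h]; ring
      have hw : w ≠ 0 := by
        rintro rfl
        rw [zero_pow three_ne_zero] at h1
        exact mul_ne_zero (pow_ne_zero 2 ha) (pow_ne_zero 3 hu) h1.symm
      refine ⟨0, ha, Or.inl ⟨rfl, a * u / w, ?_⟩⟩
      rw [div_pow, h1]
      field_simp
    · by_cases hu : u = 0
      · subst hu
        refine ⟨Affine.Point.some 0 0 (hV.nons hD' (by ring)), ha,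
          Or.inr (Or.inl ⟨⟨_, rfl⟩, w / s, ?_⟩)⟩
        have h1 : w ^ 3 = a * algebraMap F L D * s ^ 3 := by rw [h]; ring
        rw [div_pow, h1]
        field_simp
      · have he : (a * u ^ 3 / s ^ 3) ^ 2 + algebraMap F L D * (a * u ^ 3 / s ^ 3) = (u * w / s ^ 2) ^ 3 := by
          have h2 : (u * w / s ^ 2) ^ 3 = u ^ 3 * w ^ 3 / s ^ 6 := by
            field_simp
          rw [h2, h]
          field_simp
        refine ⟨Affine.Point.some (u * w / s ^ 2) (a * u ^ 3 / s ^ 3) (hV.nons hD' he), ha,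
          Or.inr (Or.inr ⟨_, _, _, s / u, rfl, ?_, div_ne_zero hs hu, ?_⟩)⟩
        · exact div_ne_zero (mul_ne_zero ha (pow_ne_zero _ hu)) (pow_ne_zero _ hs)
        · field_simp
  · rintro ⟨P, -, h⟩
    rcases h with ⟨-, s, hs⟩ | ⟨-, s, hs⟩ | ⟨x, y, h, s, -, hy, hs, he⟩
    · exact ⟨1, s ^ 2, 0, Or.inl one_ne_zero, by rw [hs]; ring⟩
    · exact ⟨0, s, 1, Or.inr (Or.inr one_ne_zero), by rw [hs]; ring⟩
    · have hxy := (hV.eqn x y).1 h.1
      refine ⟨1 / s ^ 2, x, 1 / s, Or.inr (Or.inr (one_div_ne_zero hs)), ?_⟩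
      rw [← hxy, he]
      field_simp

end L

theorem aec : S_AEC := by
  intro F _ _ v D a hD ha
  rw [ae_iff, cpl_coe, ← ak_cls hD ((map_ne_zero _).2 ha)]
  exact ⟨fun h => h.2, fun h => ⟨ha, h⟩⟩

end Pool.Agent.Q283.EN
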