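import Pool.Agent.Q283.EN.MainC
import Pool.Agent.Q153.EN.QLAW

/-!
# Project EN: the quartic twists
-/

set_option autoImplicit false

namespace Pool.Agent.Q283.EN

open NumberField IsDedekindDomain Filter Topology Finset WeierstrassCurve
open Pool.Agent.Q283.LQ (Sm Box Nest nS)
open Pool.Agent.Q7.LK
open Pool.Agent.TH841.SH.D (Coch Pt act Gal IsCoc IsCob LocTriv)
open Pool.Agent.TH841.NF.D (Sha IsShaCoc)

section

variable {F : Type} [Field F] [NumberField F]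

/-- the condition `AQ` at all places -/
def PQ (D a : F) : Prop := ∀ v : HeightOneSpectrum (𝓞 F), AQ v D a

theorem pq_ne {D a : F} (h : PQ D a) : a ≠ 0 := by
  obtain ⟨v⟩ := exists_place F
  exact (h v).1

end

/-- the facts for a single curve -/
def S_QPT : Prop := ∀ (F : Type) [Field F] [NumberField F] (i D : F), i ^ 2 = -1 → D ≠ 0 → ¬ IsPow 2 D →
  ∃ r : ℕ, HasN 2 (PQ D) (2 ^ (r + 1)) ∧ Finite {x : Sha (EQ D) // (2 : ℕ) • x = 0} ∧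
    2 ^ Module.finrank ℤ (Pt (EQ D) F) * Nat.card {x : Sha (EQ D) // (2 : ℕ) • x = 0} ≤ (2 ^ r) ^ 2 ∧ (Triv2 D ↔ r = 0)

theorem qpt (hQPOW : S_QPOW) (hQFEW : S_QFEW) (hQRS : S_QRS) (hQTRI : S_QTRI) (hQCNV : S_QCNV) : S_QPT := by
  intro F _ _ i D hi hD hc
  obtain ⟨r, hr⟩ := hQPOW F i D hi hD hc
  have hf := hQFEW F i D hi hD hc r hr
  obtain ⟨h1, h2⟩ := hQRS F i D hi hD _ hf
  refine ⟨r, hr, h1, h2, fun h => ?_, fun h => ?_⟩
  · have h3 := hasN_uniq (fun a h => pq_ne h) (hQCNV F i D hi hD h) hr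
    have h4 : 2 ^ 1 = 2 ^ (r + 1) := by rw [← h3]; norm_num
    have h5 := Nat.pow_right_injective (le_refl 2) h4
    omega
  · subst h
    exact hQTRI F i D hi hD hf

theorem triv2_iff (hC : S_QPT) {F : Type} [Field F] [NumberField F] {i D : F} (hi : i ^ 2 = -1) (hD : D ≠ 0)
    (hc : ¬ IsPow 2 D) : Triv2 D ↔ HasN 2 (PQ D) (2 ^ (0 + 1)) := by
  obtain ⟨r, h1, -, -, h4⟩ := hC F i D hi hD hc
  rw [h4]
  constructor
  · rintro rfl
    exact h1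
  · intro h
    have h3 := hasN_uniq (fun a h => pq_ne h) h h1
    have h5 := Nat.pow_right_injective (le_refl 2) h3
    omega

theorem rank2_le (hC : S_QPT) {F : Type} [Field F] [NumberField F] {i D : F} (hi : i ^ 2 = -1) (hD : D ≠ 0)
    (hc : ¬ IsPow 2 D) {r : ℕ} (hr : HasN 2 (PQ D) (2 ^ (r + 1))) : Module.finrank ℤ (Pt (EQ D) F) ≤ 2 * r := by
  obtain ⟨r', h1, h2, h3, -⟩ := hC F i D hi hD hc
  have h4 := hasN_uniq (fun a h => pq_ne h) h1 hr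
  have h5 := Nat.pow_right_injective (le_refl 2) h4
  have h6 : r' = r := by omega
  subst h6
  have h7 : 0 < Nat.card {x : Sha (EQ D) // (2 : ℕ) • x = 0} := by
    have : Nonempty {x : Sha (EQ D) // (2 : ℕ) • x = 0} := ⟨⟨0, smul_zero _⟩⟩
    exact Nat.card_pos
  have h8 : 2 ^ Module.finrank ℤ (Pt (EQ D) F) ≤ 2 ^ (2 * r') := by
    calc 2 ^ Module.finrank ℤ (Pt (EQ D) F) ≤ 2 ^ Module.finrank ℤ (Pt (EQ D) F) * Nat.card {x : Sha (EQ D) // (2 : ℕ) • x = 0} :=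
          Nat.le_mul_of_pos_right _ h7
      _ ≤ (2 ^ r') ^ 2 := h3
      _ = 2 ^ (2 * r') := by rw [← pow_mul, mul_comm]
  exact (Nat.pow_le_pow_iff_right (by norm_num)).1 h8

/-- **The quartic twists.** -/
def S_QMAIN : Prop := ∀ (F : Type) [Field F] [NumberField F] (i : F), i ^ 2 = -1 → ∃ y0 : ℕ, ∀ y, y0 ≤ y →
  ∀ D0 : F, D0 ≠ 0 →
  ∀ (R : ℕ) (ε : ℝ), 0 < ε → ∃ k0 : ℕ, 1 ≤ k0 ∧ ∀ k, k0 ≤ k → Nest k fun X =>
    (Box y X : Set (Fin k → HeightOneSpectrum (𝓞 F))).Finite ∧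
    0 < ({q ∈ (Box y X : Set (Fin k → HeightOneSpectrum (𝓞 F))) | ∃ D, QFits y D0 q D}.ncard : ℝ) ∧
    (∀ q ∈ (Box y X : Set (Fin k → HeightOneSpectrum (𝓞 F))), ∀ D D', QFits y D0 q D → QFits y D0 q D' →
      ¬ IsPow 2 D ∧ IsPow 2 (D' / D) ∧ ∀ a, PQ D a ↔ PQ D' a) ∧
    (∀ r ≤ R, |({q ∈ (Box y X : Set (Fin k → HeightOneSpectrum (𝓞 F))) | (∃ D, QFits y D0 q D) ∧
          ∀ D, QFits y D0 q D → HasN 2 (PQ D) (2 ^ (r + 1))}.ncard : ℝ) -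
        al 2 r * ({q ∈ (Box y X : Set (Fin k → HeightOneSpectrum (𝓞 F))) | ∃ D, QFits y D0 q D}.ncard : ℝ)| ≤
      ε * ({q ∈ (Box y X : Set (Fin k → HeightOneSpectrum (𝓞 F))) | ∃ D, QFits y D0 q D}.ncard : ℝ)) ∧
    |({q ∈ (Box y X : Set (Fin k → HeightOneSpectrum (𝓞 F))) | (∃ D, QFits y D0 q D) ∧
          ∀ D, QFits y D0 q D → Triv2 D}.ncard : ℝ) -
        al 2 0 * ({q ∈ (Box y X : Set (Fin k → HeightOneSpectrum (𝓞 F))) | ∃ D, QFits y D0 q D}.ncard : ℝ)| ≤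
      ε * ({q ∈ (Box y X : Set (Fin k → HeightOneSpectrum (𝓞 F))) | ∃ D, QFits y D0 q D}.ncard : ℝ) ∧
    ∀ (T : Finset (Fin k → HeightOneSpectrum (𝓞 F))) (D : (Fin k → HeightOneSpectrum (𝓞 F)) → F),
      (∀ q, q ∈ T ↔ q ∈ (Box y X : Set (Fin k → HeightOneSpectrum (𝓞 F))) ∧ ∃ D, QFits y D0 q D) →
      (∀ q ∈ T, QFits y D0 q (D q)) → ∃ r : (Fin k → HeightOneSpectrum (𝓞 F)) → ℕ,
      (∀ q ∈ T, HasN 2 (PQ (D q)) (2 ^ (r q + 1)) ∧ Module.finrank ℤ (Pt (EQ (D q)) F) ≤ 2 * r q) ∧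
      ∑ q ∈ T, (2 : ℝ) ^ r q ≤ (2 + ε) * (T.card : ℝ) ∧ ∑ q ∈ T, (r q : ℝ) ≤ (avg 2 + ε) * (T.card : ℝ)

/-- a primitive square root of unity -/
theorem prim_neg (F : Type) [Field F] [CharZero F] : IsPrimitiveRoot (-1 : F) 2 := by
  rw [IsPrimitiveRoot.iff_def]
  refine ⟨by norm_num, fun l hl => ?_⟩
  rcases Nat.even_or_odd l with h | h
  · exact h.two_dvd
  · rw [h.neg_one_pow] at hl
    exfalso
    have h2 : (2 : F) = 0 := by linear_combination -hl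
    exact two_ne_zero h2

theorem qmain (hBAS : S_BAS) (hBASE2 : S_BASE2) (hUNQ : S_UNQ) (hQLOC : S_QLOC) (hQCX : S_QCX) (hLAW : S_QLAW) (hC : S_QPT)
    (hM : S_MLAW) : S_QMAIN := by
  intro F _ _ i hi
  have : Fact (Nat.Prime 2) := ⟨Nat.prime_two⟩
  have hζ := prim_neg F
  obtain ⟨v0⟩ := exists_place F
  obtain ⟨y1, hy1⟩ := hLAW F i hi
  obtain ⟨y2, hy2⟩ := hUNQ 2 F (-1) (hBASE2 F i (-1) hi hζ)
  refine ⟨max y1 y2, fun y hy D0 hD0 R ε hε => ?_⟩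
  obtain ⟨h2y, hun, -⟩ := hy2 y (le_trans (le_max_right _ _) hy)
  obtain ⟨R', δ, hδ, hgen⟩ := gen_mean (F := F) hM 2 ε hε
  obtain ⟨k0, hk0⟩ := hy1 y (le_trans (le_max_left _ _) hy) D0 hD0 (max R R') (min ε δ) (lt_min hε hδ)
  refine ⟨max k0 1, le_max_right _ _, fun k hk => nest_mono k _ _ (fun X hX => ?_)
    (hk0 k (le_trans (le_max_left _ _) hk))⟩
  have hk1 : 1 ≤ k := le_trans (le_max_right _ _) hk
  obtain ⟨hfin, hpos, hlaw, hmean⟩ := hX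
  have hnc : ∀ q ∈ (Box y X : Set (Fin k → HeightOneSpectrum (𝓞 F))), ∀ D, QFits y D0 q D → ¬ IsPow 2 D :=
    fun q hq D hD => fits_not_pow hk1 (fun _ => one_ne_zero) hq.1 (fun i => (hq.2 i).1)
      (Pool.Agent.Q153.EN.fits_of_q hBAS hq.1 hD)
  have hsq : ∀ q ∈ (Box y X : Set (Fin k → HeightOneSpectrum (𝓞 F))), ∀ D D', QFits y D0 q D → QFits y D0 q D' →
      ∃ s, s ≠ 0 ∧ D' = D * s ^ 2 := fun q hq D D' hD hD' =>
    Pool.Agent.Q153.EN.fits_sq hBAS hun hD0 (Pool.Agent.Q153.EN.fits_of_q hBAS hq.1 hD)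
      (Pool.Agent.Q153.EN.fits_of_q hBAS hq.1 hD')
  have himp : ∀ q ∈ (Box y X : Set (Fin k → HeightOneSpectrum (𝓞 F))), ∀ D D', QFits y D0 q D → QFits y D0 q D' →
      ∀ a, PQ D a → PQ D' a := by
    intro q hq D D' hD hD' a ha
    obtain ⟨s, hs, rfl⟩ := hsq q hq D D' hD hD'
    have h1 := (Pool.Agent.Q153.EN.cond_iff hBAS hQLOC hQCX hi hζ h2y hD0 hq.1 (fun i => (hq.2 i).1) hD v0 a).1 ha
    exact (Pool.Agent.Q153.EN.cond_iff hBAS hQLOC hQCX hi hζ h2y hD0 hq.1 (fun i => (hq.2 i).1) hD' v0 a).2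
      (Pool.Agent.Q153.EN.condX_sq hBAS hD.ne hs h1)
  have hN0 : (0 : ℝ) ≤ ({q ∈ (Box y X : Set (Fin k → HeightOneSpectrum (𝓞 F))) | ∃ D, QFits y D0 q D}.ncard : ℝ) :=
    Nat.cast_nonneg _
  have hlaw' : ∀ r ≤ R, |({q ∈ (Box y X : Set (Fin k → HeightOneSpectrum (𝓞 F))) | (∃ D, QFits y D0 q D) ∧
          ∀ D, QFits y D0 q D → HasN 2 (PQ D) (2 ^ (r + 1))}.ncard : ℝ) -
        al 2 r * ({q ∈ (Box y X : Set (Fin k → HeightOneSpectrum (𝓞 F))) | ∃ D, QFits y D0 q D}.ncard : ℝ)| ≤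
      ε * ({q ∈ (Box y X : Set (Fin k → HeightOneSpectrum (𝓞 F))) | ∃ D, QFits y D0 q D}.ncard : ℝ) := by
    intro r hr
    exact le_trans (hlaw r (le_trans hr (le_max_left _ _))) (mul_le_mul_of_nonneg_right (min_le_left _ _) hN0)
  refine ⟨hfin, hpos, fun q hq D D' hD hD' => ⟨hnc q hq D hD, ?_, fun a => ⟨himp q hq D D' hD hD' a, himp q hq D' D hD' hD a⟩⟩,
    hlaw', ?_, ?_⟩
  · obtain ⟨s, hs, rfl⟩ := hsq q hq D D' hD hD'
    exact ⟨s, by rw [mul_div_cancel_left₀ _ hD.ne]⟩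
  · have hset : {q ∈ (Box y X : Set (Fin k → HeightOneSpectrum (𝓞 F))) | (∃ D, QFits y D0 q D) ∧
          ∀ D, QFits y D0 q D → Triv2 D} = {q ∈ (Box y X : Set (Fin k → HeightOneSpectrum (𝓞 F))) | (∃ D, QFits y D0 q D) ∧
          ∀ D, QFits y D0 q D → HasN 2 (PQ D) (2 ^ (0 + 1))} := by
      ext q
      simp only [Set.mem_ofPred_eq]
      constructor
      · rintro ⟨hq, hd, h⟩
        exact ⟨hq, hd, fun D hD => (triv2_iff hC hi hD.ne (hnc q hq D hD)).1 (h D hD)⟩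
      · rintro ⟨hq, hd, h⟩
        exact ⟨hq, hd, fun D hD => (triv2_iff hC hi hD.ne (hnc q hq D hD)).2 (h D hD)⟩
    rw [hset]
    exact hlaw' 0 (Nat.zero_le _)
  · intro T D hT hD
    obtain ⟨r, h1, h2, h3⟩ := hgen (Fin k → HeightOneSpectrum (𝓞 F)) (Box y X)
      (fun q (D : F) => q ∈ (Box y X : Set (Fin k → HeightOneSpectrum (𝓞 F))) ∧ QFits y D0 q D) (PQ : F → F → Prop) hfin
      (fun (D a : F) (h : PQ D a) => pq_ne h)
      (fun r hr => by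
        have e1 : {q ∈ (Box y X : Set (Fin k → HeightOneSpectrum (𝓞 F))) | (∃ D, q ∈ (Box y X : Set (Fin k → HeightOneSpectrum (𝓞 F))) ∧ QFits y D0 q D) ∧
            ∀ D, (q ∈ (Box y X : Set (Fin k → HeightOneSpectrum (𝓞 F))) ∧ QFits y D0 q D) → HasN 2 (PQ D) (2 ^ (r + 1))} =
            {q ∈ (Box y X : Set (Fin k → HeightOneSpectrum (𝓞 F))) | (∃ D, QFits y D0 q D) ∧
            ∀ D, QFits y D0 q D → HasN 2 (PQ D) (2 ^ (r + 1))} := by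
          ext q
          simp only [Set.mem_ofPred_eq]
          exact ⟨fun h => ⟨h.1, ⟨h.2.1.choose, h.2.1.choose_spec.2⟩, fun D hD => h.2.2 D ⟨h.1, hD⟩⟩,
            fun h => ⟨h.1, ⟨h.2.1.choose, h.1, h.2.1.choose_spec⟩, fun D hD => h.2.2 D hD.2⟩⟩
        have e2 : {q ∈ (Box y X : Set (Fin k → HeightOneSpectrum (𝓞 F))) | ∃ D, q ∈ (Box y X : Set (Fin k → HeightOneSpectrum (𝓞 F))) ∧ QFits y D0 q D} =
            {q ∈ (Box y X : Set (Fin k → HeightOneSpectrum (𝓞 F))) | ∃ D, QFits y D0 q D} := by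
          ext q
          simp only [Set.mem_ofPred_eq]
          exact ⟨fun h => ⟨h.1, ⟨h.2.choose, h.2.choose_spec.2⟩⟩, fun h => ⟨h.1, ⟨h.2.choose, h.1, h.2.choose_spec⟩⟩⟩
        rw [e1, e2]
        exact le_trans (hlaw r (le_trans hr (le_max_right _ _))) (mul_le_mul_of_nonneg_right (min_le_right _ _) hN0))
      (fun B N hB hN => by
        have e2 : {q ∈ (Box y X : Set (Fin k → HeightOneSpectrum (𝓞 F))) | ∃ D, q ∈ (Box y X : Set (Fin k → HeightOneSpectrum (𝓞 F))) ∧ QFits y D0 q D} =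
            {q ∈ (Box y X : Set (Fin k → HeightOneSpectrum (𝓞 F))) | ∃ D, QFits y D0 q D} := by
          ext q
          simp only [Set.mem_ofPred_eq]
          exact ⟨fun h => ⟨h.1, ⟨h.2.choose, h.2.choose_spec.2⟩⟩, fun h => ⟨h.1, ⟨h.2.choose, h.1, h.2.choose_spec⟩⟩⟩
        rw [e2]
        refine le_trans (hmean B N hB (fun q hq => by
          obtain ⟨D, ⟨_, h5⟩, h6⟩ := hN q hq
          exact ⟨D, h5, h6⟩)) ?_
        have h5 : (2 + min ε δ) * 2 ≤ (2 + δ) * ((2 : ℕ) : ℝ) := by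
          push_cast
          linarith [min_le_right ε δ]
        exact mul_le_mul_of_nonneg_right h5 hN0)
      (fun q D D' hD hD' a => ⟨himp q hD.1 D D' hD.2 hD'.2 a, himp q hD.1 D' D hD'.2 hD.2 a⟩)
      (fun q D hq hD => by
        obtain ⟨r, hr, -⟩ := hC F i D hi hD.2.ne (hnc q hq D hD.2)
        exact ⟨r, hr⟩) T D (fun q => by
          rw [hT q]
          exact ⟨fun h => ⟨h.1, ⟨h.2.choose, h.1, h.2.choose_spec⟩⟩, fun h => ⟨h.1, ⟨h.2.choose, h.2.choose_spec.2⟩⟩⟩)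
      (fun q hq => ⟨((hT q).1 hq).1, hD q hq⟩)
    exact ⟨r, fun q hq => ⟨h1 q hq, rank2_le hC hi (hD q hq).ne (hnc q ((hT q).1 hq).1 (D q) (hD q hq)) (h1 q hq)⟩, by
      exact_mod_cast h2, h3⟩

end Pool.Agent.Q283.EN
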