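import Pool.Agent.Q7.CE.All3
import Pool.Agent.Q283.EN.Aec
import Pool.Agent.Q68.EN.HS1A2
import Pool.Agent.Q65.EN.HS1N2
import Pool.Agent.Q190.EN.Hs12
import Pool.Agent.Q238.EN.HS22
import Pool.Agent.Q190.EN.Rec2
import Pool.Agent.Q190.EN.Loc2
import Pool.Agent.Q208.EN.BAS12
import Pool.Agent.Q208.EN.BASE2
import Pool.Agent.Q211.EN.NRM2
import Pool.Agent.Q153.EN.FRM
import Pool.Agent.Q38.EN.EEX
import Pool.Agent.Q176.EN.SSX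
import Pool.Agent.Q211.EN.SPN
import Pool.Agent.Q223.EN.ALG
import Pool.Agent.Q238.EN.Syml
import Pool.Agent.Q265.EN.TABL
import Pool.Agent.Q265.EN.TRF
import Pool.Agent.Q150.EN.LAWX
import Pool.Agent.Q68.EN.LPT
import Pool.Agent.Q123.EN.Lna
import Pool.Agent.Q123.EN.Abs
import Pool.Agent.Q26.EN.LIX
import Pool.Agent.Q26.EN.LIXG
import Pool.Agent.Q190.EN.Val
import Pool.Agent.Q190.EN.Unq
import Pool.Agent.Q124.EN.TH3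
import Pool.Agent.Q38.EN.IDX3
import Pool.Agent.Q181.EN.ECX
import Pool.Agent.Q222.EN.CFEW
import Pool.Agent.Q164.EN.Claw
import Pool.Agent.Q285.EN.QCL
import Pool.Agent.Q223.EN.QFEND
import Pool.Agent.Q53.EN.QAP
import Pool.Agent.Q53.EN.QLOC
import Pool.Agent.Q53.EN.QEISO
import Pool.Agent.Q149.EN.IDX2
import Pool.Agent.Q193.EN.QCX
import Pool.Agent.Q193.EN.QKUM
import Pool.Agent.Q238.EN.QFEW
import Pool.Agent.Q164.EN.Qrs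
import Pool.Agent.Q238.EN.QTRI
import Pool.Agent.Q150.EN.QSP
import Pool.Agent.Q153.EN.QLAW
import Pool.Agent.Q121.EN.ECOC
import Pool.Agent.Q195.EN.ECNV
import Pool.Agent.Q296.EN.CPOW
import Pool.Agent.Q26.EN.QCOC
import Pool.Agent.Q162.EN.QCNV
import Pool.Agent.Q26.EN.QPOW
import Pool.Agent.Q162.EN.MLAW
import Pool.Agent.Q153.EN.NUMA
import Pool.Agent.Q7.LK.Uni
import Pool.Agent.Q283.EN.MainQ

/-!
# Project EN: all parts together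
-/

set_option autoImplicit false

namespace Pool.Agent.Q283.EN

open Pool.Agent.Q7.LK (t_BAS t_CPL t_SU t_CHEB t_SH1 t_COUNT t_NEST t_BASE t_LOC t_HS2)
open Pool.Agent.Q7.CE (t_ELOC t_EISO t_FEND t_EKUM2 t_ERS t_ETRI)

theorem t_HS1A2 : S_HS1A2 := Pool.Agent.Q68.EN.hs1a2 t_BAS
theorem t_HS1N2 : S_HS1N2 := Pool.Agent.Q65.EN.hs1n2 t_BAS
theorem t_HS12 : S_HS12 := Pool.Agent.Q190.EN.hs12 t_BAS t_HS1A2 t_HS1N2
theorem t_HS22 : S_HS22 := Pool.Agent.Q238.EN.hs22 t_BAS t_HS12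
theorem t_REC2 : S_REC2 := Pool.Agent.Q190.EN.rec2 t_BAS t_HS22
theorem t_LOC2 : S_LOC2 := Pool.Agent.Q190.EN.loc2
theorem t_BAS12 : S_BAS12 := Pool.Agent.Q208.EN.bas12 t_BAS t_LOC2 t_SU t_REC2 t_CHEB
theorem t_BASE2 : S_BASE2 := Pool.Agent.Q208.EN.base2 t_BAS t_BAS12 t_REC2 t_CHEB
theorem t_NRM2 : S_NRM2 := Pool.Agent.Q211.EN.nrm2 t_BAS
theorem t_FRM : S_FRM := Pool.Agent.Q153.EN.frm t_BAS t_CHEB
theorem t_EEX : S_EEX := Pool.Agent.Q38.EN.eex t_BAS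
theorem t_SSX : S_SSX := Pool.Agent.Q176.EN.ssx t_BAS t_SH1
theorem t_SPN : S_SPN := Pool.Agent.Q211.EN.spn t_BAS
theorem t_ALG : S_ALG := Pool.Agent.Q223.EN.alg
theorem t_SYML : S_SYML := Pool.Agent.Q238.EN.syml
theorem t_TABL : S_TABL := Pool.Agent.Q265.EN.tabl t_ALG t_SYML t_COUNT
theorem t_TRF : S_TRF := Pool.Agent.Q265.EN.trf t_NEST t_SH1
theorem t_LAWX : S_LAWX := Pool.Agent.Q150.EN.lawx t_FRM t_EEX t_SSX t_SPN t_TABL t_TRF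
theorem t_LPT : S_LPT := Pool.Agent.Q68.EN.lpt
theorem t_LNA : S_LNA := Pool.Agent.Q123.EN.lna
theorem t_ABS : S_ABS := Pool.Agent.Q123.EN.absix
theorem t_LIX : S_LIX := Pool.Agent.Q26.EN.lix t_LPT t_LNA t_ABS
theorem t_LIXG : S_LIXG := Pool.Agent.Q26.EN.lixg t_LIX
theorem t_VAL : S_VAL := Pool.Agent.Q190.EN.val
theorem t_UNQ : S_UNQ := Pool.Agent.Q190.EN.unq t_BAS
theorem t_AEC : S_AEC := aec
theorem t_TH3 : S_TH3 := Pool.Agent.Q124.EN.th3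
theorem t_IDX3 : S_IDX3 := Pool.Agent.Q38.EN.idx3 t_BAS t_CPL t_ELOC t_FEND t_AEC t_TH3 t_LIXG t_VAL
theorem t_ECX : S_ECX := Pool.Agent.Q181.EN.ecx t_BAS t_CPL t_ELOC t_IDX3
theorem t_CFEW : S_CFEW := Pool.Agent.Q222.EN.cfew t_ELOC t_EKUM2
theorem t_CLAW : S_CLAW := Pool.Agent.Q164.EN.claw t_LAWX t_BASE t_LOC t_HS2 t_BAS t_ELOC t_EISO t_FEND t_AEC t_VAL t_UNQ t_IDX3 t_ECX
theorem t_QCL : S_QCL := Pool.Agent.Q285.EN.qcl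
theorem t_QFEND : S_QFEND := Pool.Agent.Q223.EN.qfend
theorem t_QAP : S_QAP := Pool.Agent.Q53.EN.qap
theorem t_QLOC : S_QLOC := Pool.Agent.Q53.EN.qloc t_BAS t_CPL t_QCL t_QAP
theorem t_QEISO : S_QEISO := Pool.Agent.Q53.EN.qeiso t_BAS t_CPL t_QAP t_NRM2
theorem t_IDX2 : S_IDX2 := Pool.Agent.Q149.EN.idx2 t_CPL t_QCL t_QFEND t_QAP t_QLOC t_LIXG t_VAL
theorem t_QCX : S_QCX := Pool.Agent.Q193.EN.qcx t_BAS t_CPL t_QLOC t_IDX2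
theorem t_QKUM : S_QKUM := Pool.Agent.Q193.EN.qkum
theorem t_QFEW : S_QFEW := Pool.Agent.Q238.EN.qfew t_QLOC t_QKUM
theorem t_QRS : S_QRS := Pool.Agent.Q164.EN.qrs t_QFEND
theorem t_QTRI : S_QTRI := Pool.Agent.Q238.EN.qtri t_QFEND
theorem t_QSP : S_QSP := Pool.Agent.Q150.EN.qsp t_BAS
theorem t_QLAW : S_QLAW := Pool.Agent.Q153.EN.qlaw t_LAWX t_BASE2 t_LOC2 t_HS22 t_BAS t_QLOC t_QEISO t_VAL t_UNQ t_IDX2 t_QCX t_QSP
theorem t_ECOC : S_ECOC := Pool.Agent.Q121.EN.ecoc'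
theorem t_ECNV : S_ECNV := Pool.Agent.Q195.EN.ecnv t_ECOC t_AEC t_FEND
theorem t_CPOW : S_CPOW := Pool.Agent.Q296.EN.cpow t_BAS t_BASE t_AEC t_FEND t_ELOC t_ECX
theorem t_QCOC : S_QCOC := Pool.Agent.Q26.EN.qcoc t_QAP
theorem t_QCNV : S_QCNV := Pool.Agent.Q162.EN.qcnv t_QCOC t_QAP t_QCL t_QFEND
theorem t_QPOW : S_QPOW := Pool.Agent.Q26.EN.qpow t_BAS t_BASE2 t_QLOC t_QCX
theorem t_MLAW : S_MLAW := Pool.Agent.Q162.EN.mlaw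
theorem t_NUMA : S_NUMA := Pool.Agent.Q153.EN.numa

theorem t_CPT : S_CPT := cpt t_ELOC t_ECX t_CPOW t_CFEW t_ERS t_ETRI t_ECNV
theorem t_QPT : S_QPT := qpt t_QPOW t_QFEW t_QRS t_QTRI t_QCNV

theorem t_CMAIN : S_CMAIN := cmain t_BAS t_BASE t_ELOC t_CLAW t_CPT t_MLAW
  (fun F _ _ ω hω => Pool.Agent.Q7.LK.uniq t_BAS t_BASE 3 (by norm_num) F ω hω)

theorem t_QMAIN : S_QMAIN := qmain t_BAS t_BASE2 t_UNQ t_QLOC t_QCX t_QLAW t_QPT t_MLAW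

end Pool.Agent.Q283.EN
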