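import Pool.Agent.Q7.LK.Stm2

/-!
# Project EN (helper283): exact laws of Selmer groups over number fields, definitions

`p` is a prime, `F` a number field containing a primitive `p`-th root of unity (and `i` if `p = 2`).  The definitions `Sm`, `Box`, `Nest`,
`vl`, `Lpw`, `sy`, `Nn`, `Base`, `Fits`, `Tab`, `Mt`, `Tb`, `Hilb`, `dv` are those of the projects LQ and LK.
-/

set_option autoImplicit false

namespace Pool.Agent.Q283.EN

open NumberField IsDedekindDomain Filter Topology Finset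
open Pool.Agent.Q283.LQ (Sm Box Nest nS)
open Pool.Agent.Q7.LK

/-- `F` contains the fourth roots of unity if `p = 2` -/
def Hi (p : ℕ) (F : Type) [Field F] : Prop := p = 2 → ∃ i : F, i ^ 2 = -1

section F

variable {F : Type} [Field F] [NumberField F]

/-- groups `A v` of classes of `F_v^*` modulo `p`-th powers, for the places `v` above rational primes `≤ y`, isotropic for the Hilbert
symbol `t`, of at least `p ^ (c v + 1)` elements -/
structure LocX (p : ℕ) (t : HeightOneSpectrum (𝓞 F) → F → F → ZMod p) (y : ℕ) (A : HeightOneSpectrum (𝓞 F) → F → Prop)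
    (c : HeightOneSpectrum (𝓞 F) → ℕ) : Prop where
  ne : ∀ v a, Sm y v → A v a → a ≠ 0
  mul : ∀ v a b, Sm y v → A v a → A v b → A v (a * b)
  pow : ∀ v b, Sm y v → Lpw p v b → A v b
  iso : ∀ v a b, Sm y v → A v a → A v b → t v a b = 0
  num : ∀ v, Sm y v → ∃ B : Finset F, p ^ (c v + 1) ≤ B.card ∧ (∀ b ∈ B, A v b) ∧
    ∀ b ∈ B, ∀ b' ∈ B, b ≠ b' → ¬ Lpw p v (b / b')
  zero : ∀ v, ¬ Sm y v → c v = 0

/-- `a` satisfies the local conditions belonging to `D` -/
structure CondX (p y : ℕ) (A : HeightOneSpectrum (𝓞 F) → F → Prop) (D a : F) : Prop where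
  ne : a ≠ 0
  unr : ∀ v : HeightOneSpectrum (𝓞 F), ¬ Sm y v → vl p v D = 0 → vl p v a = 0
  ram : ∀ v : HeightOneSpectrum (𝓞 F), ¬ Sm y v → vl p v D ≠ 0 → ∃ j : ℕ, Lpw p v (a * D ^ j)
  loc : ∀ v : HeightOneSpectrum (𝓞 F), Sm y v → A v a

/-- the elements with the property `P` have exactly `N` classes modulo `p`-th powers -/
def HasN (p : ℕ) (P : F → Prop) (N : ℕ) : Prop :=
  ∃ a : Fin N → F, (∀ i, P (a i)) ∧ (∀ i j, i ≠ j → ¬ IsPow p (a i / a j)) ∧ ∀ b, P b → ∃ i, IsPow p (b / a i)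

/-- every element `b` of `F^*` is, up to local `p`-th powers at the places above rational primes `≤ y`, equal to some `x ∈ F^*` whose
orders at the other places different from the `q i` are divisible by `p` -/
def Spn (p y : ℕ) {k : ℕ} (q : Fin k → HeightOneSpectrum (𝓞 F)) : Prop :=
  ∀ b : F, b ≠ 0 → ∃ x : F, x ≠ 0 ∧
    (∀ v : HeightOneSpectrum (𝓞 F), ¬ Sm y v → (∀ i, q i ≠ v) → vl p v x = 0) ∧
    ∀ v : HeightOneSpectrum (𝓞 F), Sm y v → Lpw p v (x / b)

end F

/-! ## Tables -/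

/-- the form on the classes -/
def BB {p f : ℕ} (g : (Fin f → ZMod p) → (Fin f → ZMod p) → ZMod p) (x x' : (Fin f → ZMod p) × (Fin f → ZMod p)) :
    ZMod p := g x.1 x'.1 + dot x.1 x'.2 - dot x'.1 x.2

/-- `g` is alternating and additive -/
structure Alt {p f : ℕ} (g : (Fin f → ZMod p) → (Fin f → ZMod p) → ZMod p) : Prop where
  add : ∀ a b c, g (a + b) c = g a c + g b c
  anti : ∀ a b, g a b = - g b a
  self : ∀ a, g a a = 0

/-- `E` is isotropic and has at least `p ^ f` elements -/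
structure IsoX {p f : ℕ} (g : (Fin f → ZMod p) → (Fin f → ZMod p) → ZMod p)
    (E : Submodule (ZMod p) ((Fin f → ZMod p) × (Fin f → ZMod p))) : Prop where
  iso : ∀ x ∈ E, ∀ x' ∈ E, BB g x x' = 0
  num : p ^ f ≤ Nat.card E

/-- the solutions for the table `τ` (`a = ∏ π_j ^ (Y j) / mon u c`, `D = ∏ π_j ^ (z j) / mon u w`), trivial ones included -/
def SolX {p f k : ℕ} (g : (Fin f → ZMod p) → (Fin f → ZMod p) → ZMod p) (w : Fin f → ZMod p) (z : Fin k → ZMod p)
    (E : Submodule (ZMod p) ((Fin f → ZMod p) × (Fin f → ZMod p))) (τ : Tab p f k) :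
    Set ((Fin f → ZMod p) × (Fin k → ZMod p)) :=
  {x | (∑ j, x.2 j • τ.1 j, x.1) ∈ E ∧
    ∀ j, ∑ i, (x.2 i - x.2 j * (z j)⁻¹ * z i) * Mt g τ i j = dot (τ.1 j) (x.1 - (x.2 j * (z j)⁻¹) • w)}

/-- the number of the symmetric matrices of size `n` over `F_p` -/
noncomputable def nSy (p n : ℕ) : ℕ := Nat.card {M : Matrix (Fin n) (Fin n) (ZMod p) // M.IsSymm}

/-- the number of the symmetric matrices of size `n` over `F_p` with a kernel of `p ^ r` elements -/
noncomputable def nRk (p n r : ℕ) : ℕ := Nat.card {M : Matrix (Fin n) (Fin n) (ZMod p) //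
  M.IsSymm ∧ Nat.card {x : Fin n → ZMod p // M.mulVec x = 0} = p ^ r}

/-- the limit of the proportion of the symmetric matrices over `F_p` with a kernel of dimension `r` -/
noncomputable def al (p r : ℕ) : ℝ :=
  (∏' i : ℕ, (1 - (1 / (p : ℝ)) ^ (2 * i + 1))) / ∏ i ∈ range r, ((p : ℝ) ^ (i + 1) - 1)

end Pool.Agent.Q283.EN
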