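import Pool.Agent.Q283.EN.Stm3

/-!
# Project EN: the means, generic part
-/

set_option autoImplicit false

namespace Pool.Agent.Q283.EN

open Finset
open Pool.Agent.Q7.LK (IsPow)

section

variable {F : Type} [Field F]

/-- the number of the classes is unique -/
theorem hasN_uniq {p : ℕ} {P : F → Prop} (h0 : ∀ a, P a → a ≠ 0) {N M : ℕ} (hN : HasN p P N) (hM : HasN p P M) : N = M := by
  have key : ∀ N M : ℕ, HasN p P N → HasN p P M → N ≤ M := by
    rintro N M ⟨a, ha, hai, -⟩ ⟨b, hb, -, hbf⟩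
    choose f hf using fun i => hbf (a i) (ha i)
    have hinj : Function.Injective f := by
      intro i j hij
      by_contra hne
      apply hai i j hne
      obtain ⟨x, hx⟩ := hf i
      obtain ⟨x', hx'⟩ := hf j
      refine ⟨x / x', ?_⟩
      rw [div_pow, ← hx, ← hx', hij]
      have h1 := h0 _ (ha i)
      have h2 := h0 _ (ha j)
      have h3 := h0 _ (hb (f j))
      field_simp
    have := Fintype.card_le_of_injective f hinj
    simpa using this
  exact le_antisymm (key N M hN hM) (key M N hM hN)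

theorem hasN_congr {p : ℕ} {P Q : F → Prop} (h : ∀ a, P a ↔ Q a) {N : ℕ} (hN : HasN p P N) : HasN p Q N := by
  obtain ⟨a, h1, h2, h3⟩ := hN
  exact ⟨a, fun i => (h _).1 (h1 i), h2, fun b hb => h3 b ((h b).2 hb)⟩

/-- the mean of the exponent of the number of the classes -/
theorem gen_mean (hM : S_MLAW) (p : ℕ) [Fact p.Prime] (ε : ℝ) (hε : 0 < ε) :
    ∃ (R : ℕ) (δ : ℝ), 0 < δ ∧ ∀ (α : Type) (Bx : Set α) (Fit : α → F → Prop) (P : F → F → Prop),
      Bx.Finite → (∀ D a, P D a → a ≠ 0) →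
      (∀ r ≤ R, |({q ∈ Bx | (∃ D, Fit q D) ∧ ∀ D, Fit q D → HasN p (P D) (p ^ (r + 1))}.ncard : ℝ) -
        al p r * ({q ∈ Bx | ∃ D, Fit q D}.ncard : ℝ)| ≤ δ * ({q ∈ Bx | ∃ D, Fit q D}.ncard : ℝ)) →
      (∀ (B : Finset α) (N : α → ℕ), (∀ q ∈ B, q ∈ Bx) → (∀ q ∈ B, ∃ D, Fit q D ∧ HasN p (P D) (N q)) →
        ∑ q ∈ B, (N q : ℝ) ≤ (2 + δ) * p * ({q ∈ Bx | ∃ D, Fit q D}.ncard : ℝ)) →
      (∀ q D D', Fit q D → Fit q D' → ∀ a, P D a ↔ P D' a) →
      (∀ q D, q ∈ Bx → Fit q D → ∃ r, HasN p (P D) (p ^ (r + 1))) →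
      ∀ (T : Finset α) (D : α → F), (∀ q, q ∈ T ↔ q ∈ Bx ∧ ∃ D, Fit q D) → (∀ q ∈ T, Fit q (D q)) →
      ∃ r : α → ℕ, (∀ q ∈ T, HasN p (P (D q)) (p ^ (r q + 1))) ∧
        ∑ q ∈ T, (p : ℝ) ^ r q ≤ (2 + ε) * (T.card : ℝ) ∧ ∑ q ∈ T, (r q : ℝ) ≤ (avg p + ε) * (T.card : ℝ) := by
  classical
  obtain ⟨R, δ, hδ, hR⟩ := hM p ε hε
  refine ⟨R, min δ ε, lt_min hδ hε, ?_⟩
  intro α Bx Fit P hBx h0 hlaw hmean heqv hpow T D hT hD
  have hp : 1 < p := (Fact.out : p.Prime).one_lt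
  have hset : ({q ∈ Bx | ∃ D, Fit q D} : Set α) = (T : Set α) := by
    ext q
    simp only [Set.mem_ofPred_eq, Finset.mem_coe]
    exact (hT q).symm
  have hcard : ({q ∈ Bx | ∃ D, Fit q D} : Set α).ncard = T.card := by
    rw [hset, Set.ncard_coe_finset]
  have hex : ∀ q, ∃ r : ℕ, q ∈ T → HasN p (P (D q)) (p ^ (r + 1)) := by
    intro q
    by_cases hq : q ∈ T
    · obtain ⟨r, hr⟩ := hpow q (D q) ((hT q).1 hq).1 (hD q hq)
      exact ⟨r, fun _ => hr⟩
    · exact ⟨0, fun h => absurd h hq⟩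
  choose r hr using hex
  have hsum : ∑ q ∈ T, (p : ℝ) ^ r q ≤ (2 + min δ ε) * (T.card : ℝ) := by
    have h1 := hmean T (fun q => p ^ (r q + 1)) (fun q hq => ((hT q).1 hq).1) (fun q hq => ⟨D q, hD q hq, hr q hq⟩)
    rw [hcard] at h1
    have h2 : ∑ q ∈ T, (((p ^ (r q + 1) : ℕ)) : ℝ) = p * ∑ q ∈ T, (p : ℝ) ^ r q := by
      rw [Finset.mul_sum]
      refine Finset.sum_congr rfl fun q _ => ?_
      push_cast
      ring
    rw [h2] at h1
    have hp0 : (0 : ℝ) < p := by exact_mod_cast (by omega : 0 < p)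
    have h3 : (p : ℝ) * ∑ q ∈ T, (p : ℝ) ^ r q ≤ p * ((2 + min δ ε) * (T.card : ℝ)) := by
      calc (p : ℝ) * ∑ q ∈ T, (p : ℝ) ^ r q ≤ (2 + min δ ε) * p * (T.card : ℝ) := h1
        _ = p * ((2 + min δ ε) * (T.card : ℝ)) := by ring
    exact le_of_mul_le_mul_left h3 hp0
  have hc0 : (0 : ℝ) ≤ T.card := Nat.cast_nonneg _
  refine ⟨r, fun q hq => hr q hq, ?_, ?_⟩
  · refine le_trans hsum (mul_le_mul_of_nonneg_right ?_ hc0)
    linarith [min_le_right δ ε]
  · refine hR α T r (fun j hj => ?_) ?_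
    · have hfil : ({q ∈ Bx | (∃ D, Fit q D) ∧ ∀ D, Fit q D → HasN p (P D) (p ^ (j + 1))} : Set α) =
          ((T.filter (fun q => r q = j)) : Set α) := by
        ext q
        simp only [Set.mem_ofPred_eq, Finset.coe_filter, Finset.mem_coe]
        constructor
        · rintro ⟨hq, hd, hall⟩
          have hqT : q ∈ T := (hT q).2 ⟨hq, hd⟩
          refine ⟨hqT, ?_⟩
          have h1 := hasN_uniq (h0 (D q)) (hr q hqT) (hall (D q) (hD q hqT))
          have h2 := Nat.pow_right_injective (by omega : 2 ≤ p) h1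
          omega
        · rintro ⟨hqT, hj'⟩
          have hq := (hT q).1 hqT
          refine ⟨hq.1, hq.2, fun D' hD' => ?_⟩
          have h1 := hr q hqT
          rw [hj'] at h1
          exact hasN_congr (heqv q (D q) D' (hD q hqT) hD') h1
      have h1 := hlaw j hj
      rw [hfil, hcard, Set.ncard_coe_finset] at h1
      refine le_trans h1 (mul_le_mul_of_nonneg_right (min_le_left _ _) hc0)
    · refine le_trans hsum (mul_le_mul_of_nonneg_right ?_ hc0)
      linarith [min_le_left δ ε]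

end

end Pool.Agent.Q283.EN
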