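import Pool.Agent.Q283.EN.Main
import Pool.Agent.Q7.LK.Main
import Pool.Agent.Q285.CE.ELOC

/-!
# Project EN: the cubic twists
-/

set_option autoImplicit false

namespace Pool.Agent.Q283.EN

open NumberField IsDedekindDomain Filter Topology Finset WeierstrassCurve
open Pool.Agent.Q283.LQ (Sm Box Nest nS)
open Pool.Agent.Q7.LK
open Pool.Agent.Q7.CE
open Pool.Agent.TH841.SH.D (Coch Pt act Gal IsCoc IsCob LocTriv)
open Pool.Agent.TH841.NF.D (Sha IsShaCoc)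

theorem isPow_inv {F : Type} [Field F] {p : ℕ} {a : F} (h : IsPow p a) : IsPow p a⁻¹ := by
  obtain ⟨x, rfl⟩ := h
  exact ⟨x⁻¹, by rw [inv_pow]⟩

theorem isPow_mul {F : Type} [Field F] {p : ℕ} {a b : F} (h : IsPow p a) (h' : IsPow p b) : IsPow p (a * b) := by
  obtain ⟨x, rfl⟩ := h
  obtain ⟨z, rfl⟩ := h'
  exact ⟨x * z, by rw [mul_pow]⟩

/-- more elements than classes -/
theorem hasN_pig {F : Type} [Field F] {p : ℕ} {P : F → Prop} (h0 : ∀ a, P a → a ≠ 0) {N M : ℕ} (hN : HasN p P N) (hlt : N < M)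
    (b : Fin M → F) (hb : ∀ i, P (b i)) : ∃ i j, i ≠ j ∧ IsPow p (b i / b j) := by
  obtain ⟨a, ha, -, haf⟩ := hN
  choose f hf using fun i => haf (b i) (hb i)
  obtain ⟨i, j, hij, he⟩ := Fintype.exists_ne_map_eq_of_card_lt f (by simpa using hlt)
  refine ⟨i, j, hij, ?_⟩
  have h1 := isPow_mul (hf i) (isPow_inv (hf j))
  have h2 : b i / a (f i) * (b j / a (f j))⁻¹ = b i / b j := by
    rw [he]
    have h3 := h0 _ (ha (f j))
    have h4 := h0 _ (hb j)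
    field_simp
  rwa [h2] at h1

theorem exists_place (F : Type) [Field F] [NumberField F] : Nonempty (HeightOneSpectrum (𝓞 F)) := by
  obtain ⟨P, hP0, hP⟩ := Ring.not_isField_iff_exists_prime.1 (RingOfIntegers.not_isField F)
  exact ⟨⟨P, hP, hP0⟩⟩

/-- `D` which fits is no `p`-th power -/
theorem fits_not_pow {F : Type} [Field F] [NumberField F] {p y : ℕ} {D0 : F} {k : ℕ} (hk : 1 ≤ k) {z : Fin k → ZMod p} (hz : ∀ i, z i ≠ 0)
    {q : Fin k → HeightOneSpectrum (𝓞 F)} (hq : Function.Injective q) (hs : ∀ i, ¬ Sm y (q i)) {D : F}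
    (h : Fits p y D0 z q D) : ¬ IsPow p D := by
  rintro ⟨x, hx⟩
  have hx0 : x ≠ 0 := by
    rintro rfl
    rcases Nat.eq_zero_or_pos p with hp | hp
    · subst hp
      have h1 := h.ram (q ⟨0, hk⟩) (hs _)
      rw [hx, pow_zero] at h1
      have h2 : vl 0 (q ⟨0, hk⟩) (1 : F) = 0 := by
        unfold vl
        simp
      rw [h2, Finset.sum_eq_single (⟨0, hk⟩ : Fin k)] at h1
      · rw [if_pos rfl] at h1
        exact hz _ h1.symm
      · intro b _ hb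
        exact if_neg fun he => hb (hq he)
      · intro hh
        exact absurd (Finset.mem_univ _) hh
    · rw [zero_pow (by omega)] at hx
      exact h.ne hx
  have h1 := h.ram (q ⟨0, hk⟩) (hs _)
  rw [hx, vl_pow _ x hx0, Finset.sum_eq_single (⟨0, hk⟩ : Fin k)] at h1
  · rw [if_pos rfl] at h1
    exact hz _ h1.symm
  · intro b _ hb
    exact if_neg fun he => hb (hq he)
  · intro hh
    exact absurd (Finset.mem_univ _) hh

section

variable {F : Type} [Field F] [NumberField F]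

/-- the condition `AE` at all places -/
def PC (D a : F) : Prop := ∀ v : HeightOneSpectrum (𝓞 F), AE v D a

theorem ae_one (v : HeightOneSpectrum (𝓞 F)) (D : F) : AE v D 1 := by
  rw [Pool.Agent.Q285.CE.ae_iff, map_one]
  exact ⟨one_ne_zero, Pool.Agent.Q285.CE.AK.one _⟩

theorem pc_ne {D a : F} (h : PC D a) : a ≠ 0 := by
  obtain ⟨v⟩ := exists_place F
  exact (h v).1

/-- three classes: nothing is bad -/
theorem not_bad (hE : S_ELOC) (hX : S_ECX) {ω D : F} (hω : IsPrimitiveRoot ω 3) (hD : D ≠ 0) (hc : ¬ IsPow 3 D)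
    (h : HasN 3 (PC D) 3) : ¬ Bad 3 (AE (F := F)) D := by
  rintro ⟨a, ha, hj⟩
  have hPa : PC D a := by
    intro v
    by_cases hv : Dp 3 v
    · exact ha.abv v hv
    · exact (hX F ω hω v D a hv hD ha.ne).2 ⟨ha.unr v hv, ha.ram v hv⟩
  have hP1 : PC D 1 := fun v => ae_one v D
  have hPD : PC D D := fun v => by
    have := (hE F v D hD).2.2.1 1 (ae_one v D)
    rwa [one_mul] at this
  have hPD2 : PC D (D ^ 2) := fun v => by
    have := (hE F v D hD).2.2.1 D (hPD v)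
    rwa [← sq] at this
  have ha0 := ha.ne
  have hnD : ∀ x : F, IsPow 3 x → x ≠ D := fun x hx he => hc (he ▸ hx)
  have cube : ∀ x : F, IsPow 3 (x ^ 3) := fun x => ⟨x, rfl⟩
  obtain ⟨i, j, hij, hp⟩ := hasN_pig (fun a h => pc_ne h) h (by norm_num : 3 < 4) ![1, D, D ^ 2, a]
    (by
      intro i
      fin_cases i
      · exact hP1
      · exact hPD
      · exact hPD2
      · exact hPa)
  have key : ∀ i j : Fin 4, i < j → ¬ IsPow 3 ((![1, D, D ^ 2, a] : Fin 4 → F) j / (![1, D, D ^ 2, a] : Fin 4 → F) i) := by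
    intro i j hij hp
    fin_cases i <;> fin_cases j <;> simp at hij hp
    · exact hc hp
    · refine hnD _ (isPow_mul (isPow_inv hp) (cube D)) ?_
      field_simp
    · apply hj 0
      rwa [pow_zero, mul_one]
    · have e : D ^ 2 / D = D := by field_simp
      rw [e] at hp
      exact hc hp
    · apply hj 2
      have := isPow_mul hp (cube D)
      have e : a / D * D ^ 3 = a * D ^ 2 := by field_simp
      rwa [e] at this
    · apply hj 1
      have := isPow_mul hp (cube D)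
      have e : a / D ^ 2 * D ^ 3 = a * D ^ 1 := by field_simp
      rwa [e] at this
  rcases lt_or_gt_of_ne hij with h1 | h1
  · exact key i j h1 (by
      have := isPow_inv hp
      rwa [inv_div] at this)
  · exact key j i h1 hp

end

/-- the facts for a single curve -/
def S_CPT : Prop := ∀ (F : Type) [Field F] [NumberField F] (ω D : F), IsPrimitiveRoot ω 3 → D ≠ 0 → ¬ IsPow 3 D →
  ∃ r : ℕ, HasN 3 (PC D) (3 ^ (r + 1)) ∧ Finite {x : Sha (ED D) // (3 : ℕ) • x = 0} ∧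
    3 ^ Module.finrank ℤ (Pt (ED D) F) * Nat.card {x : Sha (ED D) // (3 : ℕ) • x = 0} ≤ (3 ^ r) ^ 2 ∧ (Triv D ↔ r = 0)

theorem cpt (hE : S_ELOC) (hX : S_ECX) (hCPOW : S_CPOW) (hCFEW : S_CFEW) (hERS : S_ERS) (hETRI : S_ETRI) (hECNV : S_ECNV) :
    S_CPT := by
  intro F _ _ ω D hω hD hc
  obtain ⟨r, hr⟩ := hCPOW F ω D hω hD hc
  obtain ⟨h1, h2⟩ := hERS F ω D hω hD _ (hCFEW F ω D hω hD hc r hr)
  refine ⟨r, hr, h1, h2, fun h => ?_, fun h => ?_⟩
  · have h3 := hasN_uniq (fun a h => pc_ne h) (hECNV F ω D hω hD h) hr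
    have h4 : 3 ^ 1 = 3 ^ (r + 1) := by rw [← h3]; norm_num
    have h5 := Nat.pow_right_injective (le_refl 2 |>.trans (by norm_num) : 2 ≤ 3) h4
    omega
  · subst h
    refine hETRI F ω D hω hD (not_bad hE hX hω hD hc ?_)
    have h6 : HasN 3 (PC D) (3 ^ (0 + 1)) := hr
    norm_num at h6
    exact h6

/-- `AE` depends only on the class modulo cubes -/
theorem pc_congr (hBAS : S_BAS) (hE : S_ELOC) {F : Type} [Field F] [NumberField F] {D D' : F} (hD : D ≠ 0) (hD' : D' ≠ 0)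
    (h : IsPow 3 (D' / D)) {a : F} (ha : PC D a) : PC D' a := by
  obtain ⟨x, hx⟩ := h
  have hx0 : x ≠ 0 := by
    rintro rfl
    rw [zero_pow (by norm_num)] at hx
    exact div_ne_zero hD' hD hx
  intro v
  have h1 := (hE F v D hD).2.1 (x ^ 3) a ((hBAS 3 F v).2.2.1 x hx0) (ha v)
  rwa [← hx, mul_div_cancel₀ _ hD] at h1

/-- **The cubic twists.** -/
def S_CMAIN : Prop := ∀ (F : Type) [Field F] [NumberField F] (ω : F), IsPrimitiveRoot ω 3 → ∃ y0 : ℕ, ∀ y, y0 ≤ y →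
  ∀ D0 : F, D0 ≠ 0 →
  (∀ (k : ℕ) (z : Fin k → ZMod 3) (q : Fin k → HeightOneSpectrum (𝓞 F)) (D D' : F),
    Fits 3 y D0 z q D → Fits 3 y D0 z q D' → IsPow 3 (D / D')) ∧
  ∀ (R : ℕ) (ε : ℝ), 0 < ε → ∃ k0 : ℕ, 1 ≤ k0 ∧ ∀ k, k0 ≤ k → ∀ z : Fin k → ZMod 3, (∀ i, z i ≠ 0) → Nest k fun X =>
    (Box y X : Set (Fin k → HeightOneSpectrum (𝓞 F))).Finite ∧
    0 < ({q ∈ (Box y X : Set (Fin k → HeightOneSpectrum (𝓞 F))) | ∃ D, Fits 3 y D0 z q D}.ncard : ℝ) ∧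
    (∀ r ≤ R, |({q ∈ (Box y X : Set (Fin k → HeightOneSpectrum (𝓞 F))) | (∃ D, Fits 3 y D0 z q D) ∧
          ∀ D, Fits 3 y D0 z q D → HasN 3 (PC D) (3 ^ (r + 1))}.ncard : ℝ) -
        al 3 r * ({q ∈ (Box y X : Set (Fin k → HeightOneSpectrum (𝓞 F))) | ∃ D, Fits 3 y D0 z q D}.ncard : ℝ)| ≤
      ε * ({q ∈ (Box y X : Set (Fin k → HeightOneSpectrum (𝓞 F))) | ∃ D, Fits 3 y D0 z q D}.ncard : ℝ)) ∧
    |({q ∈ (Box y X : Set (Fin k → HeightOneSpectrum (𝓞 F))) | (∃ D, Fits 3 y D0 z q D) ∧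
          ∀ D, Fits 3 y D0 z q D → Triv D}.ncard : ℝ) -
        al 3 0 * ({q ∈ (Box y X : Set (Fin k → HeightOneSpectrum (𝓞 F))) | ∃ D, Fits 3 y D0 z q D}.ncard : ℝ)| ≤
      ε * ({q ∈ (Box y X : Set (Fin k → HeightOneSpectrum (𝓞 F))) | ∃ D, Fits 3 y D0 z q D}.ncard : ℝ) ∧
    ∀ (T : Finset (Fin k → HeightOneSpectrum (𝓞 F))) (D : (Fin k → HeightOneSpectrum (𝓞 F)) → F),
      (∀ q, q ∈ T ↔ q ∈ (Box y X : Set (Fin k → HeightOneSpectrum (𝓞 F))) ∧ ∃ D, Fits 3 y D0 z q D) →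
      (∀ q ∈ T, Fits 3 y D0 z q (D q)) → ∃ r : (Fin k → HeightOneSpectrum (𝓞 F)) → ℕ,
      (∀ q ∈ T, HasN 3 (PC (D q)) (3 ^ (r q + 1)) ∧ Module.finrank ℤ (Pt (ED (D q)) F) ≤ 2 * r q) ∧
      ∑ q ∈ T, (3 : ℝ) ^ r q ≤ (2 + ε) * (T.card : ℝ) ∧ ∑ q ∈ T, (r q : ℝ) ≤ (avg 3 + ε) * (T.card : ℝ)

/-- one exponent from the number of the classes -/
theorem triv_iff (hC : S_CPT) {F : Type} [Field F] [NumberField F] {ω D : F} (hω : IsPrimitiveRoot ω 3) (hD : D ≠ 0)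
    (hc : ¬ IsPow 3 D) : Triv D ↔ HasN 3 (PC D) (3 ^ (0 + 1)) := by
  obtain ⟨r, h1, -, -, h4⟩ := hC F ω D hω hD hc
  rw [h4]
  constructor
  · rintro rfl
    exact h1
  · intro h
    have h3 := hasN_uniq (fun a h => pc_ne h) h h1
    have h5 := Nat.pow_right_injective (by norm_num : 2 ≤ 3) h3
    omega

theorem rank_le (hC : S_CPT) {F : Type} [Field F] [NumberField F] {ω D : F} (hω : IsPrimitiveRoot ω 3) (hD : D ≠ 0)
    (hc : ¬ IsPow 3 D) {r : ℕ} (hr : HasN 3 (PC D) (3 ^ (r + 1))) : Module.finrank ℤ (Pt (ED D) F) ≤ 2 * r := by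
  obtain ⟨r', h1, h2, h3, -⟩ := hC F ω D hω hD hc
  have h4 := hasN_uniq (fun a h => pc_ne h) h1 hr
  have h5 := Nat.pow_right_injective (by norm_num : 2 ≤ 3) h4
  have h6 : r' = r := by omega
  subst h6
  have h7 : 0 < Nat.card {x : Sha (ED D) // (3 : ℕ) • x = 0} := by
    have : Nonempty {x : Sha (ED D) // (3 : ℕ) • x = 0} := ⟨⟨0, smul_zero _⟩⟩
    exact Nat.card_pos
  have h8 : 3 ^ Module.finrank ℤ (Pt (ED D) F) ≤ 3 ^ (2 * r') := by
    calc 3 ^ Module.finrank ℤ (Pt (ED D) F) ≤ 3 ^ Module.finrank ℤ (Pt (ED D) F) * Nat.card {x : Sha (ED D) // (3 : ℕ) • x = 0} :=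
          Nat.le_mul_of_pos_right _ h7
      _ ≤ (3 ^ r') ^ 2 := h3
      _ = 3 ^ (2 * r') := by rw [← pow_mul, mul_comm]
  exact (Nat.pow_le_pow_iff_right (by norm_num)).1 h8

theorem cmain (hBAS : S_BAS) (hBASE : S_BASE) (hE : S_ELOC) (hLAW : S_CLAW) (hC : S_CPT) (hM : S_MLAW)
    (hU : ∀ (F : Type) [Field F] [NumberField F] (ω : F), IsPrimitiveRoot ω 3 → ∃ y0 : ℕ, ∀ y, y0 ≤ y →
      ∀ D0 : F, D0 ≠ 0 → ∀ (k : ℕ) (z : Fin k → ZMod 3) (q : Fin k → HeightOneSpectrum (𝓞 F)) (D D' : F),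
      Fits 3 y D0 z q D → Fits 3 y D0 z q D' → IsPow 3 (D / D')) : S_CMAIN := by
  intro F _ _ ω hω
  have : Fact (Nat.Prime 3) := ⟨Nat.prime_three⟩
  obtain ⟨y1, hy1⟩ := hLAW F ω hω
  obtain ⟨y2, hy2⟩ := hU F ω hω
  refine ⟨max y1 y2, fun y hy D0 hD0 => ⟨hy2 y (le_trans (le_max_right _ _) hy) D0 hD0, fun R ε hε => ?_⟩⟩
  have huni := hy2 y (le_trans (le_max_right _ _) hy) D0 hD0
  obtain ⟨R', δ, hδ, hgen⟩ := gen_mean (F := F) hM 3 ε hε
  obtain ⟨k0, hk0⟩ := hy1 y (le_trans (le_max_left _ _) hy) D0 hD0 (max R R') (min ε δ) (lt_min hε hδ)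
  refine ⟨max k0 1, le_max_right _ _, fun k hk z hz => nest_mono k _ _ (fun X hX => ?_)
    (hk0 k (le_trans (le_max_left _ _) hk) z hz)⟩
  have hk1 : 1 ≤ k := le_trans (le_max_right _ _) hk
  obtain ⟨hfin, hpos, hlaw, hmean⟩ := hX
  have hnc : ∀ q ∈ (Box y X : Set (Fin k → HeightOneSpectrum (𝓞 F))), ∀ D, Fits 3 y D0 z q D → ¬ IsPow 3 D :=
    fun q hq D hD => fits_not_pow hk1 hz hq.1 (fun i => (hq.2 i).1) hD
  have hN0 : (0 : ℝ) ≤ ({q ∈ (Box y X : Set (Fin k → HeightOneSpectrum (𝓞 F))) | ∃ D, Fits 3 y D0 z q D}.ncard : ℝ) :=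
    Nat.cast_nonneg _
  have hlaw' : ∀ r ≤ R, |({q ∈ (Box y X : Set (Fin k → HeightOneSpectrum (𝓞 F))) | (∃ D, Fits 3 y D0 z q D) ∧
          ∀ D, Fits 3 y D0 z q D → HasN 3 (PC D) (3 ^ (r + 1))}.ncard : ℝ) -
        al 3 r * ({q ∈ (Box y X : Set (Fin k → HeightOneSpectrum (𝓞 F))) | ∃ D, Fits 3 y D0 z q D}.ncard : ℝ)| ≤
      ε * ({q ∈ (Box y X : Set (Fin k → HeightOneSpectrum (𝓞 F))) | ∃ D, Fits 3 y D0 z q D}.ncard : ℝ) := by
    intro r hr
    exact le_trans (hlaw r (le_trans hr (le_max_left _ _))) (mul_le_mul_of_nonneg_right (min_le_left _ _) hN0)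
  refine ⟨hfin, hpos, hlaw', ?_, ?_⟩
  · have hset : {q ∈ (Box y X : Set (Fin k → HeightOneSpectrum (𝓞 F))) | (∃ D, Fits 3 y D0 z q D) ∧
          ∀ D, Fits 3 y D0 z q D → Triv D} = {q ∈ (Box y X : Set (Fin k → HeightOneSpectrum (𝓞 F))) | (∃ D, Fits 3 y D0 z q D) ∧
          ∀ D, Fits 3 y D0 z q D → HasN 3 (PC D) (3 ^ (0 + 1))} := by
      ext q
      simp only [Set.mem_ofPred_eq]
      constructor
      · rintro ⟨hq, hd, h⟩
        exact ⟨hq, hd, fun D hD => (triv_iff hC hω hD.ne (hnc q hq D hD)).1 (h D hD)⟩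
      · rintro ⟨hq, hd, h⟩
        exact ⟨hq, hd, fun D hD => (triv_iff hC hω hD.ne (hnc q hq D hD)).2 (h D hD)⟩
    rw [hset]
    exact hlaw' 0 (Nat.zero_le _)
  · intro T D hT hD
    obtain ⟨r, h1, h2, h3⟩ := hgen (Fin k → HeightOneSpectrum (𝓞 F)) (Box y X) (fun q (D : F) => Fits 3 y D0 z q D) (PC : F → F → Prop) hfin
      (fun (D a : F) (h : PC D a) => pc_ne h)
      (fun r hr => le_trans (hlaw r (le_trans hr (le_max_right _ _))) (mul_le_mul_of_nonneg_right (min_le_right _ _) hN0))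
      (fun B N hB hN => by
        refine le_trans (hmean B N hB hN) ?_
        have h5 : (2 + min ε δ) * 3 ≤ (2 + δ) * ((3 : ℕ) : ℝ) := by
          push_cast
          linarith [min_le_right ε δ]
        exact mul_le_mul_of_nonneg_right h5 hN0)
      (fun q D D' hD hD' a => ⟨fun h => pc_congr hBAS hE hD.ne hD'.ne (huni k z q D' D hD' hD) h,
        fun h => pc_congr hBAS hE hD'.ne hD.ne (huni k z q D D' hD hD') h⟩)
      (fun q D hq hD => by
        obtain ⟨r, hr, -⟩ := hC F ω D hω hD.ne (hnc q hq D hD)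
        exact ⟨r, hr⟩) T D hT hD
    exact ⟨r, fun q hq => ⟨h1 q hq, rank_le hC hω (hD q hq).ne (hnc q ((hT q).1 hq).1 (D q) (hD q hq)) (h1 q hq)⟩, by
      exact_mod_cast h2, h3⟩

end Pool.Agent.Q283.EN
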