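import Pool.Agent.Q283.EN.Stm2

/-!
# Project EN (helper283): statements of the parts, the converse and the averages
-/

set_option autoImplicit false

namespace Pool.Agent.Q283.EN

open NumberField IsDedekindDomain Filter Topology Finset WeierstrassCurve
open Pool.Agent.Q283.LQ (Sm Box Nest nS)
open Pool.Agent.Q7.LK
open Pool.Agent.Q7.CE
open Pool.Agent.TH841.SH.D (Coch Pt act Gal IsCoc IsCob LocTriv)
open Pool.Agent.TH841.NF.D (Sha IsShaCoc)

/-- the mean of the law -/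
noncomputable def avg (p : ℕ) : ℝ := ∑' r : ℕ, (r : ℝ) * al p r

/-- JOB ECOC (uses `S_AEC`, `CE.S_FEND`, `CE.S_EDD`). From a class to a cocycle (converse of `CE.S_EKUM`).
Proof.  `α ∈ F̄`, `α³ = a`, `σ α = ω^(h σ) α`, `f σ = h(σ) T`, `T = (0, 0)` (rational, of order `3`; `- T = (0, - D)`), so `f` is a locally constant cocycle.  For `R = (x, y)`, `x ≠ 0`, let `γ(R) = (y - ω D) / ((ω² - ω) x)`: `γ(R + T) = ω γ(R)` (see the proof of `CE.S_EKUM`,
`Pool/Agent/Q190/CE/{EKUM, EKA}.lean`), and `θ R = (X, Y)` has `Y = ± γ(R)³`-type class: `Y = c γ(R)³`, `c = 1` or a cube of `F` (explicit formula, `Pool/Agent/Q123/CE/Cl.lean`; `θ = 1 - [ω]`).  Let `K = v.adicCompletion F`: by `S_AEC` there is `P ∈ E(K)` of class `a`.  `P = θ R`, `R ∈ E(K̄)`, `τ R - R` is in the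
kernel `{0, T, - T}`; if `x(R) ≠ 0` then `γ(R)³ = a s³`, `s ∈ K^*`, so `γ(R) = ω^j ι(α) s` and `τ R = R + m T` with `ω^m = τ γ / γ = ω^(h σ)`: `ι(f σ) = τ R - R`.  If `R` is in the kernel (`P = 0`, `a` a cube in `K`), `h(σ) = 0` for these `σ`, take `0`; `P = ± T`: `R = (x, y)`, `x³ = - D²`, works as
`x ≠ 0` (formula for the class `D⁻¹` of `T`).  Infinite places: `F` is totally complex, the completion is isomorphic to `ℂ`, so `τ = 1`, `σ = 1`.  Last part: if `f σ = σ R - R`, `R ∈ E(F̄)`, then `P = θ R ∈ E(F)` (fixed by all `σ`) and the same computation shows `γ(R) / α` (or `α`, if `R` is in the kernel) is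
fixed by all `σ`, so the class of `P` is `a`. -/
def S_ECOC : Prop := ∀ (F : Type) [Field F] [NumberField F] (ω D : F), IsPrimitiveRoot ω 3 → D ≠ 0 →
  ∀ a : F, (∀ v : HeightOneSpectrum (𝓞 F), AE v D a) → ∃ f : Coch (ED D), TCoc D f ∧
    (IsCob (ED D) f → ∃ P : Pt (ED D) F, Cls D F P a)

/-- JOB ECNV (uses `S_ECOC`, `S_AEC`, `CE.S_FEND`). The converse.
Proof.  Let `E(F)` be finite and `Ш[3^∞] = 0`, `a` with `AE v D a` for all `v`, `f` from `S_ECOC`: its class in `Ш` is killed by `3` (the values are killed by `3`), so it is `0`, `f` is a coboundary, and `a` is the class of some `P ∈ E(F)`.  Conversely the class of `P ∈ E(F)` has `AE v D` for all `v` (`S_FEND`: the class commutes with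
`F → F_v`; `S_AEC`).  Two points have the same class iff they differ by an element of `θ E(F)` (`S_FEND`), and `#(E(F) / θ E(F)) = #(ker θ on E(F)) = 3` (`0, T, - T`; `E(F)` is finite). -/
def S_ECNV : Prop := ∀ (F : Type) [Field F] [NumberField F] (ω D : F), IsPrimitiveRoot ω 3 → D ≠ 0 → Triv D →
  HasN 3 (fun a : F => ∀ v : HeightOneSpectrum (𝓞 F), AE v D a) 3

/-- JOB CPOW (uses `LK.S_BAS`, `LK.S_BASE`, `S_AEC`, `CE.S_FEND`, `CE.S_ELOC`, `S_ECX`). The number of the classes is a power of `3`.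
Proof.  `S_BASE` (`P_BASE 3 F ω`) for a `y` so large that all `v` with `vl 3 v D ≠ 0` are small (finitely many `v`).  If `AE v D a` for all `v` then `vl 3 v a = 0` for all `v` which are not small (`S_ECX`), so some `a * mon u c` is a cube (`Base.full`).  The set of the `c` for which `mon u c` has the property is a subspace of
`(ZMod 3)^f` (products: points and additivity of the classes, `S_AEC`, `S_FEND`, or `S_ELOC`; cubes: `S_ELOC` (1); inverses are squares up to cubes), different `c` give inequivalent elements (`Base.ind`), and it is not `0`: `D` has the property and is no cube.  Its cardinality is `3^(r+1)`. -/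
def S_CPOW : Prop := ∀ (F : Type) [Field F] [NumberField F] (ω D : F), IsPrimitiveRoot ω 3 → D ≠ 0 → ¬ IsPow 3 D →
  ∃ r : ℕ, HasN 3 (fun a : F => ∀ v : HeightOneSpectrum (𝓞 F), AE v D a) (3 ^ (r + 1))

/-- JOB QCOC (uses `S_QAP`, `S_QCL`, `S_QFEND`). From a class to a cocycle (converse of `S_QKUM`).
Proof.  `α² = a`, `σ α = (-1)^(h σ) α`, `f σ = h(σ) T`, `T = (0, 0)`.  For `R = (x, y)`, `x ≠ 0`: `β(R) = y / ((1 + i) x)`, `β(R + T) = - β(R)`, `θ R = (β², ..)`; `K = v.adicCompletion F`, `P ∈ E(K)` of class `a` (`S_QAP`), `P = θ R`.  If `P = (X, Y)`, `X ≠ 0`: `β(R)² = X = a s²`, so `β(R) = ± ι(α) s`, and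
`τ R - R ∈ {0, T}` is `T` iff `τ β = - β` iff `h σ = 1`.  `P = 0` (`a` a square in `K`): take `0`.  `P = T`: `a D = s²` in `K`; take `R = (x, 0)`, `x² = - D`: `x = c / ι(α)`, `c ∈ K`, `τ x = - x` iff `h σ = 1`, `R + T = (- x, 0)`.  Infinite places: completions isomorphic to `ℂ`.  Last part: the same over `F`. -/
def S_QCOC : Prop := ∀ (F : Type) [Field F] [NumberField F] (i D : F), i ^ 2 = -1 → D ≠ 0 →
  ∀ a : F, (∀ v : HeightOneSpectrum (𝓞 F), AQ v D a) → ∃ f : Coch (EQ D), TCoc2 D f ∧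
    (IsCob (EQ D) f → ∃ P : Pt (EQ D) F, CQ D F P a)

/-- JOB QCNV (uses `S_QCOC`, `S_QAP`, `S_QCL`, `S_QFEND`). The converse.  As `S_ECNV`, `#(E(F) / θ E(F)) = #(ker θ) = 2`. -/
def S_QCNV : Prop := ∀ (F : Type) [Field F] [NumberField F] (i D : F), i ^ 2 = -1 → D ≠ 0 → Triv2 D →
  HasN 2 (fun a : F => ∀ v : HeightOneSpectrum (𝓞 F), AQ v D a) 2

/-- JOB QPOW (uses `LK.S_BAS`, `S_BASE2`, `S_QLOC`, `S_QCX`). The number of the classes is a power of `2`.
Proof.  As `S_CPOW`, for a `y` so large that all `v` at which the order of `D` is not `0` are small (at the others `Q4 v D` with `x = 1`). -/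
def S_QPOW : Prop := ∀ (F : Type) [Field F] [NumberField F] (i D : F), i ^ 2 = -1 → D ≠ 0 → ¬ IsPow 2 D →
  ∃ r : ℕ, HasN 2 (fun a : F => ∀ v : HeightOneSpectrum (𝓞 F), AQ v D a) (2 ^ (r + 1))

/-- JOB MLAW (only Mathlib). From the law to the mean.
Proof.  `r ↦ r al p r` is nonnegative and summable (`al p r ≤ 1 / ∏_(i ≤ r) (p^i - 1)`, `0 ≤ al p 0 ≤ 1`).  The `q` with `r q ≤ R` contribute at most `∑_(j ≤ R) j (al p j + δ) #T ≤ (avg p + δ (R+1)²) #T`, the others, since `r / p^r ≤ (R + 1) / p^(R+1)` for `r > R`, at most `(R + 1) / p^(R+1) · (2 + δ) #T`.  Choose `R` large, then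
`δ` small. -/
def S_MLAW : Prop := ∀ (p : ℕ) [Fact p.Prime] (ε : ℝ), 0 < ε → ∃ (R : ℕ) (δ : ℝ), 0 < δ ∧
  ∀ (α : Type) (T : Finset α) (r : α → ℕ),
    (∀ j ≤ R, |((T.filter (fun q => r q = j)).card : ℝ) - al p j * (T.card : ℝ)| ≤ δ * (T.card : ℝ)) →
    ∑ q ∈ T, (p : ℝ) ^ r q ≤ (2 + δ) * (T.card : ℝ) → ∑ q ∈ T, (r q : ℝ) ≤ (avg p + ε) * (T.card : ℝ)

/-- JOB NUMA (only Mathlib). Numerical values: `al 3 0 = 0.6390045..`, `al 2 0 = 0.4194224..`, `2 avg 3 = 0.80812..`, `2 avg 2 = 1.52899..`.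
Proof.  The infinite product is at most a partial product and at least the partial product times `1 - ∑` of the rest (`6` factors for `p = 3`, `10` for `p = 2`); `avg p = al p 0 ∑ r / ∏_(i ≤ r) (p^i - 1)`, the first terms and a geometric bound of the rest.  `∑_r al p r = 1` is not needed. -/
def S_NUMA : Prop := (0.639 < al 3 0 ∧ al 3 0 < 0.6391) ∧ (0.4194 < al 2 0 ∧ al 2 0 < 0.4195) ∧
  2 * avg 3 < 0.81 ∧ 2 * avg 2 < 1.53

end Pool.Agent.Q283.EN
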